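import Mathlib

/-!
Definitions for the odd Jucys-Murphy elements and the Hecke algebra of the Gelfand pair `(S_{2n}, H_n)`.
Letters are `0, …, 2n-1`; the letter `k` here is the letter `k+1` of the usual numbering.
-/

namespace Pool.Agent.R141.JMO

/-- The symmetric group `S_{2n}` on the letters `0, …, 2n-1`. -/
abbrev G (n : ℕ) := Equiv.Perm (Fin (2 * n))

/-- The Jucys-Murphy element of the letter `k`: the sum of the transpositions `(i k)` with `i < k`
(`J_{k+1}` in the numbering `1, …, 2n` of the letters). -/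
noncomputable def jm (n : ℕ) (k : Fin (2 * n)) : MonoidAlgebra ℂ (G n) :=
  ∑ i ∈ Finset.univ.filter (fun i => i < k), MonoidAlgebra.single (Equiv.swap i k) 1

/-- The `i`-th (`i = 0, …, n-1`) odd-numbered Jucys-Murphy element `J_{2i+1}`. -/
noncomputable def jodd (n : ℕ) (i : Fin n) : MonoidAlgebra ℂ (G n) :=
  jm n ⟨2 * i.1, by omega⟩

/-- The ordered product `J_1^{d_0} J_3^{d_1} ⋯ J_{2n-1}^{d_{n-1}}`. -/
noncomputable def mon (n : ℕ) (d : Fin n →₀ ℕ) : MonoidAlgebra ℂ (G n) :=
  ((List.finRange n).map (fun i => jodd n i ^ d i)).prod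

/-- Symmetric functions in infinitely many variables `x_0, x_1, …` with complex coefficients, given by
their coefficients: `F d` is the coefficient of the monomial with exponent vector `d`. The degree is
bounded and the coefficients are invariant under all permutations of the variables. -/
def IsSymFun (F : (ℕ →₀ ℕ) → ℂ) : Prop :=
  (∃ D : ℕ, ∀ d : ℕ →₀ ℕ, D < d.sum (fun _ k => k) → F d = 0) ∧
    ∀ (s : Equiv.Perm ℕ) (d : ℕ →₀ ℕ), F (d.equivMapDomain s) = F d

/-- `F(J_1, J_3, …, J_{2n-1})`: the first `n` variables are the odd-numbered Jucys-Murphy elements and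
all other variables are `0`. -/
noncomputable def evalJ (n : ℕ) (F : (ℕ →₀ ℕ) → ℂ) : MonoidAlgebra ℂ (G n) :=
  ∑ᶠ d : Fin n →₀ ℕ, F (d.embDomain Fin.valEmbedding) • mon n d

/-- The other letter of the pair `{2i, 2i+1}` containing `x`. -/
def pr (n : ℕ) (x : Fin (2 * n)) : Fin (2 * n) :=
  ⟨if x.1 % 2 = 0 then x.1 + 1 else x.1 - 1, by have := x.2; split_ifs <;> omega⟩

theorem pr_pr (n : ℕ) (x : Fin (2 * n)) : pr n (pr n x) = x := by
  apply Fin.ext
  simp only [pr]
  split_ifs <;> omega

/-- The permutation `(1 2)(3 4)⋯(2n-1 2n)`. -/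
def eps (n : ℕ) : G n := ⟨pr n, pr n, pr_pr n, pr_pr n⟩

/-- The hyperoctahedral group `H_n`, the centraliser of `(1 2)(3 4)⋯(2n-1 2n)`. -/
def hyp (n : ℕ) : Subgroup (G n) := Subgroup.centralizer {eps n}

open Classical in
/-- `P_n`, the sum of the elements of `H_n`. -/
noncomputable def P (n : ℕ) : MonoidAlgebra ℂ (G n) :=
  ∑ h ∈ Finset.univ.filter (fun h => h ∈ hyp n), MonoidAlgebra.single h 1

/-- The Hecke algebra: the elements of `ℂ[S_{2n}]` whose coefficient function is constant on every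
double coset `H_n σ H_n`. -/
def hecke (n : ℕ) : Set (MonoidAlgebra ℂ (G n)) :=
  {x | ∀ a ∈ hyp n, ∀ b ∈ hyp n, ∀ s : G n, x.coeff (a * s * b) = x.coeff s}

end Pool.Agent.R141.JMO
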