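import Pool.Agent.R141.JMO.Stars

namespace Pool.Agent.R141.JMO

open Equiv.Perm

theorem formPerm_conj {n : ℕ} (h : G n) (l : List (Fin (2 * n))) :
    List.formPerm (l.map h) = h * List.formPerm l * h⁻¹ := by
  induction l with
  | nil => simp
  | cons x l ih =>
    cases l with
    | nil => simp
    | cons y l =>
      rw [List.map_cons, List.map_cons, List.formPerm_cons_cons, List.formPerm_cons_cons,
        ← List.map_cons, ih, Equiv.swap_apply_apply]
      simp only [mul_assoc, inv_mul_cancel_left]

theorem star_formPerm {n : ℕ} (j : Fin (2 * n)) (s : List (Fin (2 * n))) (h : (j :: s).Nodup) :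
    star (j :: s) = (List.formPerm (j :: s))⁻¹ := by
  induction s with
  | nil => simp [star_cons]
  | cons a s ih =>
    rw [List.nodup_cons, List.nodup_cons, List.mem_cons, not_or] at h
    have hjs : (j :: s).Nodup := List.nodup_cons.2 ⟨h.1.2, h.2.2⟩
    rw [star_cons, List.map_cons, List.prod_cons, ← star_cons, ih hjs]
    rw [List.formPerm_cons_cons, mul_inv_rev, Equiv.swap_inv]
    -- formPerm (a :: s) is the conjugate of formPerm (j :: s)
    have h1 : (a :: s) = (j :: s).map (Equiv.swap a j) := by
      rw [List.map_cons, Equiv.swap_apply_right]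
      congr 1
      conv_lhs => rw [← List.map_id s]
      apply List.map_congr_left
      intro x hx
      rw [Equiv.swap_apply_of_ne_of_ne]
      · rfl
      · intro hxa; exact h.2.1 (by rw [← hxa]; exact hx)
      · intro hxj; exact h.1.2 (by rw [← hxj]; exact hx)
    have h2 : List.formPerm (a :: s) = Equiv.swap a j * List.formPerm (j :: s) * (Equiv.swap a j)⁻¹ := by
      rw [h1, formPerm_conj]
    rw [h2, mul_inv_rev, mul_inv_rev, inv_inv, Equiv.swap_inv, Equiv.swap_comm j a]
    simp only [mul_assoc, Equiv.swap_mul_self, mul_one]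

theorem dihedral {n : ℕ} (s : G n) (x : Fin (2 * n)) (i : ℤ) :
    eps n (((eps n * M s) ^ i) x) = ((eps n * M s) ^ (-i)) (eps n x) := by
  have h1 : eps n * (eps n * M s) * (eps n)⁻¹ = (eps n * M s)⁻¹ := by
    have e1 : eps n * eps n = 1 := Equiv.ext (fun x => eps_eps x)
    have e2 : M s * M s = 1 := Equiv.ext (fun x => M_M s x)
    rw [mul_inv_rev, ← mul_assoc, e1, one_mul]
    have e3 : (M s)⁻¹ = M s := by
      rw [inv_eq_iff_mul_eq_one]; exact e2
    rw [e3]
  have h2 : eps n * (eps n * M s) ^ i * (eps n)⁻¹ = (eps n * M s) ^ (-i) := by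
    rw [← conj_zpow, h1, inv_zpow, zpow_neg]
  have h3 : eps n * (eps n * M s) ^ i = (eps n * M s) ^ (-i) * eps n := by
    rw [← h2, inv_mul_cancel_right]
  exact DFunLike.congr_fun h3 x

theorem not_sameCycle {n : ℕ} (s : G n) (x : Fin (2 * n)) (i : ℤ) :
    ((eps n * M s) ^ i) x ≠ eps n x := by
  intro h
  set c := eps n * M s with hc
  rcases Int.even_or_odd' i with ⟨k, hk | hk⟩
  · -- c^k x is a fixed point of eps
    have h1 : eps n ((c ^ k) x) = (c ^ k) x := by
      rw [dihedral, ← h, ← Equiv.Perm.mul_apply, ← hc, ← zpow_add, hk]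
      congr 2
      ring
    exact eps_ne _ h1
  · have h1 : eps n ((c ^ k) x) = c ((c ^ k) x) := by
      rw [dihedral, ← h, ← Equiv.Perm.mul_apply, ← hc, ← zpow_add, hk]
      have : c ((c ^ k) x) = (c ^ (1 + k)) x := by
        rw [zpow_add, zpow_one]; rfl
      rw [this]
      congr 2
      ring
    rw [hc, Equiv.Perm.mul_apply] at h1
    exact M_ne s _ ((eps n).injective h1).symm

/-- every permutation is, modulo `H_n` on the right, a product of stars with distinct pairs -/
theorem exists_star {n : ℕ} : ∀ (K : ℕ) (s : G n), (mv s).card = K → ∃ L : List (List (Fin (2 * n))),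
    (∀ l ∈ L, l ≠ []) ∧ (L.flatten.map pair).Nodup ∧ (mv s).card = 2 * L.flatten.length ∧
      (gL L)⁻¹ * s ∈ hyp n := by
  intro K
  induction K using Nat.strong_induction_on with
  | _ K ih =>
  intro s hK
  classical
  by_cases h0 : (mv s) = ∅
  · refine ⟨[], by simp, by simp, by simp [h0], ?_⟩
    have h1 : M s = eps n := by
      apply Equiv.ext
      intro x
      by_contra hcon
      have : x ∈ mv s := mem_mv.2 hcon
      rw [h0] at this
      simp at this
    have h2 : s ∈ hyp n := (GG_zero s).1 (fun x _ => by rw [h1])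
    simpa [gL] using h2
  obtain ⟨j, hj⟩ := Finset.nonempty_iff_ne_empty.2 h0
  rw [mem_mv] at hj
  set m := M s with hm
  set c := eps n * m with hc
  have hcj : c j ≠ j := by
    intro h
    apply hj
    rw [hc, Equiv.Perm.mul_apply] at h
    have := congrArg (eps n) h
    rw [eps_eps] at this
    exact this
  set z := c.cycleOf j with hz
  set C := z.support with hC
  have hmemC : ∀ x, x ∈ C ↔ SameCycle c j x := by
    intro x
    rw [hC, hz, mem_support_cycleOf_iff]
    simp [hcj]
  have hnoeps : ∀ x, x ∈ C → eps n x ∉ C := by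
    intro x hx hx2
    rw [hmemC] at hx hx2
    have h1 : SameCycle c x (eps n x) := hx.symm.trans hx2
    obtain ⟨i, hi⟩ := h1
    exact not_sameCycle s x i hi
  have hcC : ∀ x, x ∈ C ↔ c x ∈ C := by
    intro x
    rw [hmemC, hmemC, sameCycle_apply_right]
  have hzC : ∀ x, x ∈ C → z x = c x := by
    intro x hx
    rw [hmemC] at hx
    rw [hz]
    exact hx.cycleOf_apply
  have hzN : ∀ x, x ∉ C → z x = x := by
    intro x hx
    rwa [hC, notMem_support] at hx
  have hcx : ∀ x, c x = eps n (m x) := fun x => rfl
  have hmm : ∀ x, m (m x) = x := M_M s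
  set l := toList c j with hl
  have hlmem : ∀ x, x ∈ l ↔ x ∈ C := by
    intro x
    rw [hl, mem_toList_iff, hmemC]
    simp [hcj]
  have hlne : l ≠ [] := by
    intro h
    have : j ∈ l := by
      rw [hlmem, hmemC]
    rw [h] at this
    simp at this
  have hlnd : l.Nodup := nodup_toList c j
  have hstar : star l = z⁻¹ := by
    rw [hz, ← formPerm_toList c j, ← hl]
    clear_value l
    cases l with
    | nil => exact absurd rfl hlne
    | cons a t => exact star_formPerm a t hlnd
  have hllen : l.length = C.card := by
    rw [hl, length_toList]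
  -- the new permutation
  set s' := z * s with hs'
  have hMs' : ∀ x, M s' x = z (m (z⁻¹ x)) := by
    intro x
    simp only [hs', M, mul_inv_rev, Equiv.Perm.mul_apply, hm]
  have hv1 : ∀ x, x ∈ C → M s' x = eps n x := by
    intro x hx
    obtain ⟨x1, hx1⟩ : ∃ x1, c x1 = x := ⟨c.symm x, c.apply_symm_apply x⟩
    have hx1C : x1 ∈ C := by rw [hcC, hx1]; exact hx
    have hzi : z⁻¹ x = x1 := by
      rw [Equiv.Perm.inv_eq_iff_eq, hzC x1 hx1C, hx1]
    rw [hMs', hzi]
    have h2 : m x1 = eps n x := by
      rw [← hx1, hcx, eps_eps]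
    rw [h2]
    exact hzN _ (hnoeps x hx)
  have hv2 : ∀ x, eps n x ∈ C → M s' x = eps n x := by
    intro x hx
    have hxC : x ∉ C := by
      intro h
      exact hnoeps x h hx
    have hzi : z⁻¹ x = x := by
      rw [Equiv.Perm.inv_eq_iff_eq, hzN x hxC]
    rw [hMs', hzi]
    have h2 : c (m x) = eps n x := by rw [hcx, hmm]
    have h3 : m x ∈ C := by rw [hcC, h2]; exact hx
    rw [hzC _ h3, h2]
  have hv3 : ∀ x, x ∉ C → eps n x ∉ C → M s' x = m x := by
    intro x hx hx2
    have hzi : z⁻¹ x = x := by
      rw [Equiv.Perm.inv_eq_iff_eq, hzN x hx]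
    rw [hMs', hzi]
    apply hzN
    intro h3
    apply hx2
    have h2 : c (m x) = eps n x := by rw [hcx, hmm]
    rw [← h2, ← hcC]
    exact h3
  have hmvC : ∀ x, x ∈ C → x ∈ mv s := by
    intro x hx
    rw [mem_mv, ← hm]
    intro h
    have h1 : c x = x := by rw [hcx, h, eps_eps]
    rw [hC, hz, mem_support_cycleOf_iff, mem_support] at hx
    have h2 := hx.1
    have h3 : c j = j := by
      obtain ⟨i, hi⟩ := h2
      have h4 : c ((c ^ i) j) = (c ^ i) j := by rw [hi, h1]
      have h5 : (c ^ i) (c j) = (c ^ i) j := by
        rw [← h4, ← Equiv.Perm.mul_apply, ← Equiv.Perm.mul_apply, ← zpow_one_add, add_comm, zpow_add_one]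
      exact (c ^ i).injective h5
    exact hcj h3
  have hmvC' : ∀ x, eps n x ∈ C → x ∈ mv s := by
    intro x hx
    have h1 := hmvC _ hx
    rw [mem_mv, ← hm] at h1 ⊢
    intro h
    apply h1
    rw [eps_eps, ← h, hmm]
  set C' := C.image (eps n) with hC'
  have hmemC' : ∀ x, x ∈ C' ↔ eps n x ∈ C := by
    intro x
    rw [hC', Finset.mem_image]
    constructor
    · rintro ⟨y, hy, rfl⟩
      rw [eps_eps]; exact hy
    · intro h
      exact ⟨_, h, eps_eps x⟩
  have hdisj : Disjoint C C' := by
    rw [Finset.disjoint_left]
    intro x hx hx2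
    rw [hmemC'] at hx2
    exact hnoeps x hx hx2
  have hcardC' : C'.card = C.card := Finset.card_image_of_injective _ (eps n).injective
  have hsub : C ∪ C' ⊆ mv s := by
    intro x hx
    rw [Finset.mem_union] at hx
    rcases hx with hx | hx
    · exact hmvC x hx
    · exact hmvC' x ((hmemC' x).1 hx)
  have hmvs' : mv s' = mv s \ (C ∪ C') := by
    ext x
    rw [Finset.mem_sdiff, Finset.mem_union, hmemC', mem_mv, mem_mv, ← hm]
    by_cases hx : x ∈ C
    · simp [hx, hv1 x hx]
    by_cases hx2 : eps n x ∈ C
    · simp [hx2, hv2 x hx2]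
    rw [hv3 x hx hx2]
    simp [hx, hx2]
  have hcard : (mv s).card = (mv s').card + 2 * C.card := by
    rw [hmvs', Finset.card_sdiff_of_subset hsub, Finset.card_union_of_disjoint hdisj, hcardC']
    have := Finset.card_le_card hsub
    rw [Finset.card_union_of_disjoint hdisj, hcardC'] at this
    omega
  have hCpos : 0 < C.card := by
    rw [Finset.card_pos]
    exact ⟨j, (hmemC j).2 (SameCycle.refl _ _)⟩
  obtain ⟨L', hne, hnd, hlen, hin⟩ := ih (mv s').card (by omega) s' rfl
  have hmvL' : mv (gL L') = mv s' := by
    have h1 := mv_right (gL L') _ hin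
    rw [mul_inv_cancel_left] at h1
    exact h1.symm
  -- elements of L' are not in C, C'
  have hL'out : ∀ x ∈ L'.flatten, x ∈ mv s' := by
    have hsubL := mv_gL L'
    have e2 := card_inP (n := n) (L'.flatten.map pair).toFinset
    have e3 := List.toFinset_card_le (L'.flatten.map (pair (n := n)))
    rw [List.length_map] at e3
    have heq : mv (gL L') = inP (L'.flatten.map pair).toFinset := by
      apply Finset.eq_of_subset_of_card_le hsubL
      rw [hmvL', hlen]
      omega
    intro x hx
    rw [← hmvL', heq]
    simp only [inP, Finset.mem_filter, Finset.mem_univ, true_and, List.mem_toFinset, List.mem_map]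
    exact ⟨x, hx, rfl⟩
  refine ⟨l :: L', ?_, ?_, ?_, ?_⟩
  · intro l1 hl1
    rw [List.mem_cons] at hl1
    rcases hl1 with h | h
    · rw [h]; exact hlne
    · exact hne l1 h
  · rw [List.flatten_cons, List.map_append, List.nodup_append]
    refine ⟨?_, hnd, ?_⟩
    · apply List.Nodup.map_on _ hlnd
      intro x hx y hy hxy
      rw [hlmem] at hx hy
      rw [pair_eq_iff] at hxy
      rcases hxy with h | h
      · exact h.symm
      · exfalso
        rw [h] at hy
        exact hnoeps x hx hy
    · intro a ha b hb hab
      rw [List.mem_map] at ha hb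
      obtain ⟨x, hx, rfl⟩ := ha
      obtain ⟨y, hy, rfl⟩ := hb
      rw [hlmem] at hx
      have hy2 := hL'out y hy
      rw [hmvs', Finset.mem_sdiff, Finset.mem_union, hmemC'] at hy2
      rw [pair_eq_iff] at hab
      apply hy2.2
      rcases hab with h | h
      · left; rw [h]; exact hx
      · right; rw [h, eps_eps]; exact hx
  · rw [List.flatten_cons, List.length_append, hcard, hlen, hllen]
    ring
  · have : gL (l :: L') = star l * gL L' := by
      unfold gL
      rw [List.map_cons, List.prod_cons]
    rw [this, hstar, mul_inv_rev, inv_inv, mul_assoc, ← hs']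
    exact hin

/-- words for which a star occurs in a power of an odd Jucys-Murphy element -/
def valid {n : ℕ} (l : List (Fin (2 * n))) : Prop :=
  ∃ (i : Fin n) (s : List (Fin (2 * n))), l = ⟨2 * i.1, by omega⟩ :: s ∧ ∀ a ∈ s, a.1 < 2 * i.1

theorem exists_valid {n : ℕ} : ∀ ν : List ℕ, (∀ k ∈ ν, 0 < k) → ν.sum ≤ n →
    ∃ L : List (List (Fin (2 * n))), L.map List.length = ν ∧ (∀ l ∈ L, valid l) ∧
      (L.flatten.map pair).Nodup ∧ ∀ x ∈ L.flatten, x.1 < 2 * ν.sum := by
  intro ν
  induction ν with
  | nil => intro _ _; exact ⟨[], rfl, by simp, by simp, by simp⟩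
  | cons k ν ih =>
    intro hpos hsum
    rw [List.sum_cons] at hsum
    obtain ⟨L, hL1, hL2, hL3, hL4⟩ := ih (fun k hk => hpos k (List.mem_cons_of_mem _ hk)) (by omega)
    have hk : 0 < k := hpos k List.mem_cons_self
    set t := ν.sum with ht
    set i0 : Fin n := ⟨t + k - 1, by omega⟩ with hi0
    set l : List (Fin (2 * n)) := ⟨2 * i0.1, by omega⟩ ::
      (List.finRange (k - 1)).map (fun i => (⟨2 * (t + i.1), by have := i.2; omega⟩ : Fin (2 * n))) with hl
    refine ⟨l :: L, ?_, ?_, ?_, ?_⟩
    · rw [List.map_cons, hL1, hl]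
      simp
      omega
    · intro l1 hl1
      rw [List.mem_cons] at hl1
      rcases hl1 with h | h
      · rw [h]
        refine ⟨i0, _, rfl, ?_⟩
        intro a ha
        rw [List.mem_map] at ha
        obtain ⟨i, _, rfl⟩ := ha
        have := i.2
        simp only [hi0]
        omega
      · exact hL2 l1 h
    · rw [List.flatten_cons, List.map_append, List.nodup_append]
      refine ⟨?_, hL3, ?_⟩
      · rw [hl, List.map_cons, List.nodup_cons]
        constructor
        · intro h
          rw [List.map_map, List.mem_map] at h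
          obtain ⟨i, _, hi⟩ := h
          have := i.2
          simp only [Function.comp_apply, pair, hi0] at hi
          omega
        · rw [List.map_map]
          apply List.Nodup.map_on _ (List.nodup_finRange _)
          intro x _ y _ hxy
          simp only [Function.comp_apply, pair] at hxy
          apply Fin.ext
          omega
      · intro a ha b hb hab
        rw [List.mem_map] at ha hb
        obtain ⟨x, hx, rfl⟩ := ha
        obtain ⟨y, hy, rfl⟩ := hb
        have h1 := hL4 y hy
        have h2 : 2 * t ≤ x.1 := by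
          rw [hl, List.mem_cons] at hx
          rcases hx with h | h
          · rw [h]
            simp only [hi0]
            omega
          · rw [List.mem_map] at h
            obtain ⟨i, _, rfl⟩ := h
            simp only
            omega
        unfold pair at hab
        omega
    · intro x hx
      rw [List.flatten_cons, List.mem_append] at hx
      rw [List.sum_cons]
      rcases hx with h | h
      · rw [hl, List.mem_cons] at h
        rcases h with h | h
        · rw [h]
          simp only [hi0]
          omega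
        · rw [List.mem_map] at h
          obtain ⟨i, _, rfl⟩ := h
          have := i.2
          simp only
          omega
      · have := hL4 x h
        omega

end Pool.Agent.R141.JMO
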