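import Pool.Agent.R141.JMO.Phi

namespace Pool.Agent.R141.JMO

open MonoidAlgebra

/-- colourings constant on the orbits of two involutions -/
abbrev Col {α : Type*} (N : ℕ) (e m : Equiv.Perm α) := {f : α → Fin N // ∀ x, f (e x) = f x ∧ f (m x) = f x}

theorem col_card {α : Type*} [Fintype α] [DecidableEq α] (N : ℕ) (e m : Equiv.Perm α)
    (he : ∀ x, e (e x) = x) (hm : ∀ x, m (m x) = x) (hm0 : ∀ x, m x ≠ x)
    (q a : α) (heq : e q ≠ q) (ha : m (e q) = a) (haq : a ≠ q) (haq' : a ≠ e q) :
    Fintype.card (Col N e (Equiv.swap a q * m * Equiv.swap a q)) = Fintype.card (Col N e m) * N := by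
  set q' := e q with hq'
  set b := m q with hb
  have hma : m a = q' := by rw [← ha]; exact hm _
  have hmb : m b = q := hm _
  have hbq : b ≠ q := hm0 q
  have hbq' : b ≠ q' := by
    intro h
    apply haq
    rw [← ha, ← h, hmb]
  have hba : b ≠ a := by
    intro h
    apply heq
    rw [← hma, ← h, hmb]
  have heq' : e q' = q := he q
  set m' := Equiv.swap a q * m * Equiv.swap a q with hm'
  have h1 : m' q = q' := by
    simp only [hm', Equiv.Perm.mul_apply, Equiv.swap_apply_right, hma]
    exact Equiv.swap_apply_of_ne_of_ne haq'.symm heq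
  have h2 : m' q' = q := by
    simp only [hm', Equiv.Perm.mul_apply]
    rw [Equiv.swap_apply_of_ne_of_ne haq'.symm heq, ha, Equiv.swap_apply_left]
  have h3 : m' a = b := by
    simp only [hm', Equiv.Perm.mul_apply, Equiv.swap_apply_left]
    exact Equiv.swap_apply_of_ne_of_ne hba hbq
  have h4 : m' b = a := by
    simp only [hm', Equiv.Perm.mul_apply]
    rw [Equiv.swap_apply_of_ne_of_ne hba hbq, hmb, Equiv.swap_apply_right]
  have h5 : ∀ x, x ≠ q → x ≠ q' → x ≠ a → x ≠ b → m' x = m x := by
    intro x hx1 hx2 hx3 hx4
    simp only [hm', Equiv.Perm.mul_apply]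
    rw [Equiv.swap_apply_of_ne_of_ne hx3 hx1]
    apply Equiv.swap_apply_of_ne_of_ne
    · intro h
      apply hx2
      rw [← hm x, h, hma]
    · intro h
      apply hx4
      rw [← hm x, h]
  have h6 : ∀ x, x ≠ q → x ≠ q' → x ≠ a → x ≠ b → m x ≠ q ∧ m x ≠ q' := by
    intro x hx1 hx2 hx3 hx4
    constructor
    · intro h
      apply hx4
      rw [← hm x, h]
    · intro h
      apply hx3
      rw [← hm x, h, ha]
  have hE : Col N e m' ≃ Col N e m × Fin N :=
    { toFun := fun f => ⟨⟨fun x => if x = q ∨ x = q' then f.1 a else f.1 x, by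
          intro x
          have hf := f.2
          beta_reduce
          constructor
          · by_cases hx : x = q ∨ x = q'
            · have : e x = q ∨ e x = q' := by
                rcases hx with h | h
                · right; rw [h]
                · left; rw [h, heq']
              rw [if_pos this, if_pos hx]
            · have : ¬ (e x = q ∨ e x = q') := by
                intro h
                apply hx
                rcases h with h | h
                · right; rw [← he x, h]
                · left; rw [← he x, h, heq']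
              rw [if_neg this, if_neg hx]
              exact (hf x).1
          · by_cases hx1 : x = q
            · subst hx1
              rw [if_pos (Or.inl rfl), ← hb, if_neg (by push Not; exact ⟨hbq, hbq'⟩)]
              have := (hf a).2
              rw [h3] at this
              exact this
            by_cases hx2 : x = q'
            · rw [hx2, if_pos (Or.inr rfl), ha, if_neg (by push Not; exact ⟨haq, haq'⟩)]
            by_cases hx3 : x = a
            · rw [hx3, hma, if_pos (Or.inr rfl), if_neg (by push Not; exact ⟨haq, haq'⟩)]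
            by_cases hx4 : x = b
            · rw [hx4, hmb, if_pos (Or.inl rfl), if_neg (by push Not; exact ⟨hbq, hbq'⟩)]
              have := (hf b).2
              rw [h4] at this
              exact this
            obtain ⟨g1, g2⟩ := h6 x hx1 hx2 hx3 hx4
            rw [if_neg (by push Not; exact ⟨g1, g2⟩), if_neg (by push Not; exact ⟨hx1, hx2⟩)]
            have := (hf x).2
            rw [h5 x hx1 hx2 hx3 hx4] at this
            exact this⟩, f.1 q⟩
      invFun := fun p => ⟨fun x => if x = q ∨ x = q' then p.2 else p.1.1 x, by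
          intro x
          have hf := p.1.2
          beta_reduce
          constructor
          · by_cases hx : x = q ∨ x = q'
            · have : e x = q ∨ e x = q' := by
                rcases hx with h | h
                · right; rw [h]
                · left; rw [h, heq']
              rw [if_pos this, if_pos hx]
            · have : ¬ (e x = q ∨ e x = q') := by
                intro h
                apply hx
                rcases h with h | h
                · right; rw [← he x, h]
                · left; rw [← he x, h, heq']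
              rw [if_neg this, if_neg hx]
              exact (hf x).1
          · have hab : p.1.1 a = p.1.1 b := by
              have e1 := (hf q).2
              have e2 := (hf q).1
              have e3 := (hf q').2
              rw [ha] at e3
              rw [← hb] at e1
              rw [e3, e1, ← e2]
            by_cases hx1 : x = q
            · subst hx1
              rw [if_pos (Or.inl rfl), h1, if_pos (Or.inr rfl)]
            by_cases hx2 : x = q'
            · rw [hx2, if_pos (Or.inr rfl), h2, if_pos (Or.inl rfl)]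
            by_cases hx3 : x = a
            · rw [hx3, h3, if_neg (by push Not; exact ⟨hbq, hbq'⟩), if_neg (by push Not; exact ⟨haq, haq'⟩)]
              exact hab.symm
            by_cases hx4 : x = b
            · rw [hx4, h4, if_neg (by push Not; exact ⟨haq, haq'⟩), if_neg (by push Not; exact ⟨hbq, hbq'⟩)]
              exact hab
            obtain ⟨g1, g2⟩ := h6 x hx1 hx2 hx3 hx4
            rw [h5 x hx1 hx2 hx3 hx4, if_neg (by push Not; exact ⟨g1, g2⟩), if_neg (by push Not; exact ⟨hx1, hx2⟩)]
            exact (hf x).2⟩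
      left_inv := by
        intro f
        apply Subtype.ext
        funext x
        dsimp only
        by_cases hx : x = q ∨ x = q'
        · rw [if_pos hx]
          rcases hx with h | h
          · rw [h]
          · rw [h, hq']; exact ((f.2 q).1).symm
        · rw [if_neg hx, if_neg hx]
      right_inv := by
        intro p
        apply Prod.ext
        · apply Subtype.ext
          funext x
          dsimp only
          by_cases hx : x = q ∨ x = q'
          · rw [if_pos hx, if_neg (by push Not; exact ⟨haq, haq'⟩)]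
            have hf := p.1.2
            have e1 := (hf q).1
            have e3 := (hf q').2
            rw [ha] at e3
            rcases hx with h | h
            · rw [h, e3, ← e1]
            · rw [h, e3]
          · rw [if_neg hx, if_neg hx]
        · simp }
  rw [Fintype.card_congr hE, Fintype.card_prod, Fintype.card_fin]

/-- the matching of `s` -/
def M {n : ℕ} (s : G n) : G n := s * eps n * s⁻¹

theorem eps_eps {n : ℕ} (x : Fin (2 * n)) : eps n (eps n x) = x := pr_pr n x

theorem eps_ne {n : ℕ} (x : Fin (2 * n)) : eps n x ≠ x := by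
  intro h
  have := congrArg Fin.val h
  change (if x.1 % 2 = 0 then x.1 + 1 else x.1 - 1) = x.1 at this
  split_ifs at this <;> omega

theorem eps_val {n : ℕ} (x : Fin (2 * n)) : (eps n x).1 = if x.1 % 2 = 0 then x.1 + 1 else x.1 - 1 := rfl

theorem M_M {n : ℕ} (s : G n) (x : Fin (2 * n)) : M s (M s x) = x := by
  have h : s⁻¹ (s (eps n (s⁻¹ x))) = eps n (s⁻¹ x) := Equiv.symm_apply_apply s _
  simp only [M, Equiv.Perm.mul_apply]
  rw [h, eps_eps]
  exact Equiv.apply_symm_apply s x

theorem M_ne {n : ℕ} (s : G n) (x : Fin (2 * n)) : M s x ≠ x := by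
  intro h
  simp only [M, Equiv.Perm.mul_apply] at h
  have h2 : eps n (s⁻¹ x) = s⁻¹ x := by
    rw [Equiv.Perm.eq_inv_iff_eq]
    exact h
  exact eps_ne _ h2

theorem M_swap {n : ℕ} (s : G n) (a b : Fin (2 * n)) :
    M (Equiv.swap a b * s) = Equiv.swap a b * M s * Equiv.swap a b := by
  simp only [M, mul_inv_rev, Equiv.swap_inv, mul_assoc]

/-- number of colourings -/
noncomputable def w {n : ℕ} (N : ℕ) (s : G n) : ℕ := Fintype.card (Col N (eps n) (M s))

/-- permutations whose matching is standard on the pairs `k, k+1, …` -/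
def GG {n : ℕ} (k : ℕ) (s : G n) : Prop := ∀ x : Fin (2 * n), 2 * k ≤ x.1 → M s x = eps n x

open Classical in
noncomputable def S (n N k : ℕ) : MonoidAlgebra ℂ (G n) :=
  ∑ s ∈ Finset.univ.filter (fun s : G n => GG k s), single s (w N s : ℂ)

open Classical in
theorem S_coeff (n N k : ℕ) (s : G n) : (S n N k).coeff s = if GG k s then (w N s : ℂ) else 0 := by
  unfold S
  rw [coeff_sum, Finsupp.finsetSum_apply]
  simp only [coeff_single]
  rw [Finset.sum_filter]
  rw [Finset.sum_eq_single s]
  · split_ifs <;> simp
  · intro b _ hb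
    split_ifs
    · rw [Finsupp.single_apply, if_neg hb]
    · rfl
  · simp

theorem S_step (n N k : ℕ) (hk : k < n) :
    ((N : ℂ) • (1 : MonoidAlgebra ℂ (G n)) + jodd n ⟨k, hk⟩) * S n N k = (N : ℂ) • S n N (k + 1) := by
  classical
  apply MonoidAlgebra.ext
  ext s
  rw [add_mul, smul_mul_assoc, one_mul]
  simp only [coeff_add, coeff_smul, Finsupp.add_apply, Finsupp.smul_apply, smul_eq_mul]
  set q : Fin (2 * n) := ⟨2 * k, by omega⟩ with hq
  set q' : Fin (2 * n) := eps n q with hq'
  have hqv : q.1 = 2 * k := rfl
  have hq'v : q'.1 = 2 * k + 1 := by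
    rw [hq', eps_val, if_pos (by rw [hqv]; omega), hqv]
  have hqq' : q' ≠ q := eps_ne q
  have heq' : eps n q' = q := eps_eps q
  have hsum : (jodd n ⟨k, hk⟩ * S n N k).coeff s =
      ∑ a ∈ Finset.univ.filter (fun a => a < q), (S n N k).coeff (Equiv.swap a q * s) := by
    unfold jodd jm
    rw [Finset.sum_mul, coeff_sum, Finsupp.finsetSum_apply]
    apply Finset.sum_congr rfl
    intro a _
    rw [coeff_single_mul_apply, one_mul, Equiv.swap_inv]
  rw [hsum]
  simp only [S_coeff]
  set m := M s with hm
  have hval : ∀ x : Fin (2 * n), 2 * k + 2 ≤ x.1 → 2 * k + 2 ≤ (eps n x).1 := by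
    intro x hx
    rw [eps_val]
    split_ifs <;> omega
  by_cases hs : GG k s
  · have hs1 : GG (k + 1) s := fun x hx => hs x (by omega)
    rw [if_pos hs, if_pos hs1]
    rw [Finset.sum_eq_zero]
    · ring
    intro a ha
    simp only [Finset.mem_filter, Finset.mem_univ, true_and] at ha
    rw [if_neg]
    intro hG
    have h1 := hG q' (by omega)
    rw [M_swap, Equiv.Perm.mul_apply, Equiv.Perm.mul_apply] at h1
    have haq' : q' ≠ a := by
      intro h
      rw [← h] at ha
      have : q'.1 < q.1 := ha
      omega
    rw [Equiv.swap_apply_of_ne_of_ne haq' hqq', hs q' (by omega), heq', Equiv.swap_apply_right] at h1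
    exact absurd h1 ha.ne
  by_cases hs1 : GG (k + 1) s
  · rw [if_neg hs, if_pos hs1]
    -- the partner of q'
    set a0 := m q' with ha0
    have hmm : ∀ x, m (m x) = x := M_M s
    have ha0q : a0 ≠ q := by
      intro h
      apply hs
      intro x hx
      by_cases hx1 : 2 * (k + 1) ≤ x.1
      · exact hs1 x hx1
      have : x.1 = 2 * k ∨ x.1 = 2 * k + 1 := by omega
      rcases this with hx2 | hx2
      · have : x = q := Fin.ext (by rw [hx2, hqv])
        rw [this, ← hm, ← h, hmm]
        rw [h]
      · have : x = q' := Fin.ext (by rw [hx2, hq'v])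
        rw [this, ← hm, ← ha0, h, heq']
    have ha0q' : a0 ≠ q' := M_ne s q'
    have ha0lt : a0 < q := by
      by_contra hcon
      push Not at hcon
      have h2 : q.1 ≤ a0.1 := hcon
      have h3 : a0.1 ≠ q.1 := fun h => ha0q (Fin.ext h)
      have h4 : a0.1 ≠ q'.1 := fun h => ha0q' (Fin.ext h)
      have h5 := hs1 a0 (by omega)
      rw [← hm, ha0, hmm] at h5
      have h6 := hval a0 (by omega)
      rw [ha0, ← h5] at h6
      omega
    rw [Finset.sum_eq_single a0]
    · have hG : GG k (Equiv.swap a0 q * s) := by
        intro x hx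
        rw [M_swap, Equiv.Perm.mul_apply, Equiv.Perm.mul_apply, ← hm]
        by_cases hx1 : 2 * (k + 1) ≤ x.1
        · have e1 : x ≠ a0 := by
            intro h
            have : a0.1 < q.1 := ha0lt
            rw [h] at hx1
            omega
          have e2 : x ≠ q := by
            intro h
            rw [h] at hx1
            omega
          rw [Equiv.swap_apply_of_ne_of_ne e1 e2]
          have e3 := hs1 x hx1
          rw [← hm] at e3
          rw [e3]
          have e4 := hval x (by omega)
          apply Equiv.swap_apply_of_ne_of_ne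
          · intro h
            have : a0.1 < q.1 := ha0lt
            rw [h] at e4
            omega
          · intro h
            rw [h] at e4
            omega
        have : x.1 = 2 * k ∨ x.1 = 2 * k + 1 := by omega
        rcases this with hx2 | hx2
        · have : x = q := Fin.ext (by rw [hx2, hqv])
          rw [this, Equiv.swap_apply_right, ha0, hmm]
          rw [← ha0, Equiv.swap_apply_of_ne_of_ne ha0q'.symm hqq']
        · have : x = q' := Fin.ext (by rw [hx2, hq'v])
          rw [this, Equiv.swap_apply_of_ne_of_ne ha0q'.symm hqq', ← ha0, Equiv.swap_apply_left, heq']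
      rw [if_pos hG]
      have hc := col_card N (eps n) m eps_eps hmm (M_ne s) q a0 hqq' rfl ha0q ha0q'
      have : w N (Equiv.swap a0 q * s) = w N s * N := by
        unfold w
        rw [M_swap]
        convert hc
      rw [this]
      push_cast
      ring
    · intro a ha haa
      simp only [Finset.mem_filter, Finset.mem_univ, true_and] at ha
      rw [if_neg]
      intro hG
      have h1 := hG q' (by omega)
      rw [M_swap, Equiv.Perm.mul_apply, Equiv.Perm.mul_apply] at h1
      have haq' : q' ≠ a := by
        intro h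
        rw [← h] at ha
        have : q'.1 < q.1 := ha
        omega
      rw [Equiv.swap_apply_of_ne_of_ne haq' hqq', ← hm, ← ha0,
        Equiv.swap_apply_of_ne_of_ne haa.symm ha0q, heq'] at h1
      exact ha0q h1
    · intro h
      exfalso
      apply h
      simp only [Finset.mem_filter, Finset.mem_univ, true_and]
      exact ha0lt
  · rw [if_neg hs, if_neg hs1]
    rw [Finset.sum_eq_zero]
    · ring
    intro a ha
    simp only [Finset.mem_filter, Finset.mem_univ, true_and] at ha
    rw [if_neg]
    intro hG
    apply hs1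
    intro x hx
    have h1 := hG x (by omega)
    rw [M_swap, Equiv.Perm.mul_apply, Equiv.Perm.mul_apply] at h1
    have haq : a.1 < q.1 := ha
    have e1 : x ≠ a := by
      intro h
      rw [h] at hx
      omega
    have e2 : x ≠ q := by
      intro h
      rw [h] at hx
      omega
    rw [Equiv.swap_apply_of_ne_of_ne e1 e2] at h1
    have h2 : M s x = Equiv.swap a q (eps n x) := by
      rw [← h1, Equiv.swap_apply_self]
    rw [h2]
    have e4 := hval x (by omega)
    apply Equiv.swap_apply_of_ne_of_ne
    · intro h
      rw [h] at e4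
      omega
    · intro h
      rw [h] at e4
      omega

theorem GG_zero {n : ℕ} (s : G n) : GG 0 s ↔ s ∈ hyp n := by
  unfold GG hyp
  rw [Subgroup.mem_centralizer_iff]
  constructor
  · intro h g hg
    rw [Set.mem_singleton_iff] at hg
    subst hg
    have h1 : M s = eps n := Equiv.ext (fun x => h x (by omega))
    unfold M at h1
    rw [mul_inv_eq_iff_eq_mul] at h1
    exact h1.symm
  · intro h x _
    have h1 := h (eps n) rfl
    unfold M
    rw [← h1]
    simp

theorem GG_top {n : ℕ} (s : G n) : GG n s := by
  intro x hx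
  have := x.2
  omega

theorem w_hyp {n N : ℕ} (s : G n) (hs : s ∈ hyp n) : w N s = w N (1 : G n) := by
  have h1 : M s = eps n := Equiv.ext (fun x => (GG_zero s).2 hs x (by omega))
  have h2 : M (1 : G n) = eps n := by simp [M]
  unfold w
  rw [h1, h2]

theorem S_zero (n N : ℕ) : S n N 0 = (w N (1 : G n) : ℂ) • P n := by
  classical
  unfold S P
  rw [Finset.smul_sum]
  have hf : (Finset.univ.filter (fun s : G n => GG 0 s)) = Finset.univ.filter (fun h => h ∈ hyp n) := by
    ext s
    simp [GG_zero]
  rw [hf]
  apply Finset.sum_congr rfl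
  intro s hs
  simp only [Finset.mem_filter, Finset.mem_univ, true_and] at hs
  rw [w_hyp s hs, smul_single, smul_eq_mul, mul_one]

theorem hyp_comm {n : ℕ} {h : G n} (hh : h ∈ hyp n) (x : Fin (2 * n)) : h (eps n x) = eps n (h x) := by
  unfold hyp at hh
  rw [Subgroup.mem_centralizer_iff] at hh
  have := hh (eps n) rfl
  have h2 := DFunLike.congr_fun this x
  simp only [Equiv.Perm.mul_apply] at h2
  exact h2.symm

theorem mem_hyp {n : ℕ} {h : G n} : h ∈ hyp n ↔ ∀ x, h (eps n x) = eps n (h x) := by
  constructor
  · exact fun hh x => hyp_comm hh x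
  · intro hh
    unfold hyp
    rw [Subgroup.mem_centralizer_iff]
    intro g hg
    rw [Set.mem_singleton_iff] at hg
    subst hg
    exact Equiv.ext (fun x => (hh x).symm)

theorem w_left {n N : ℕ} (h s : G n) (hh : h ∈ hyp n) : w N (h * s) = w N s := by
  classical
  unfold w
  apply Fintype.card_congr
  have hMs : ∀ x, M (h * s) (h x) = h (M s x) := by
    intro x
    have hi := (hyp n).inv_mem hh
    simp only [M, mul_inv_rev, Equiv.Perm.mul_apply]
    congr 3
    congr 1
    exact Equiv.symm_apply_apply h x
  refine
    { toFun := fun f => ⟨fun x => f.1 (h x), fun x => ⟨?_, ?_⟩⟩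
      invFun := fun f => ⟨fun x => f.1 (h⁻¹ x), fun x => ⟨?_, ?_⟩⟩
      left_inv := ?_
      right_inv := ?_ }
  · beta_reduce
    rw [hyp_comm hh]
    exact (f.2 _).1
  · beta_reduce
    rw [← hMs]
    exact (f.2 _).2
  · beta_reduce
    rw [hyp_comm ((hyp n).inv_mem hh)]
    exact (f.2 _).1
  · beta_reduce
    have e1 := hMs (h⁻¹ x)
    have e2 : h (h⁻¹ x) = x := Equiv.apply_symm_apply h x
    rw [e2] at e1
    have e3 : h⁻¹ (M (h * s) x) = M s (h⁻¹ x) := by
      rw [e1]
      exact Equiv.symm_apply_apply h _
    rw [e3]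
    exact (f.2 _).2
  · intro f
    apply Subtype.ext
    funext x
    change f.1 (h (h⁻¹ x)) = f.1 x
    exact congrArg f.1 (Equiv.apply_symm_apply h x)
  · intro f
    apply Subtype.ext
    funext x
    change f.1 (h⁻¹ (h x)) = f.1 x
    exact congrArg f.1 (Equiv.symm_apply_apply h x)

theorem w_pos {n N : ℕ} (hN : 0 < N) (s : G n) : 0 < w N s := by
  unfold w
  rw [Fintype.card_pos_iff]
  exact ⟨⟨fun _ => ⟨0, hN⟩, fun x => ⟨rfl, rfl⟩⟩⟩

/-- `∏_{i<k} (N + X_i)` -/
noncomputable def Q (n N k : ℕ) : MvPolynomial (Fin n) ℂ :=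
  ∏ i ∈ Finset.univ.filter (fun i : Fin n => i.1 < k), (MvPolynomial.C (N : ℂ) + MvPolynomial.X i)

theorem Q_succ (n N k : ℕ) (hk : k < n) :
    Q n N (k + 1) = (MvPolynomial.C (N : ℂ) + MvPolynomial.X ⟨k, hk⟩) * Q n N k := by
  unfold Q
  have : Finset.univ.filter (fun i : Fin n => i.1 < k + 1) =
      insert ⟨k, hk⟩ (Finset.univ.filter (fun i : Fin n => i.1 < k)) := by
    ext i
    simp only [Finset.mem_filter, Finset.mem_univ, true_and, Finset.mem_insert, Fin.ext_iff]
    omega
  rw [this, Finset.prod_insert]
  simp

theorem Phi_Q (n N k : ℕ) (hk : k ≤ n) :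
    Phi n (Q n N k) * S n N 0 = ((N : ℂ) ^ k) • S n N k := by
  induction k with
  | zero =>
    have : Q n N 0 = 1 := by
      unfold Q
      apply Finset.prod_eq_one
      intro i hi
      simp at hi
    rw [this, map_one, one_mul, pow_zero, one_smul]
  | succ k ih =>
    rw [Q_succ n N k (by omega), map_mul, mul_assoc, ih (by omega), mul_smul_comm]
    have h1 : Phi n (MvPolynomial.C (N : ℂ) + MvPolynomial.X ⟨k, by omega⟩) =
        (N : ℂ) • (1 : MonoidAlgebra ℂ (G n)) + jodd n ⟨k, by omega⟩ := by
      rw [map_add, Phi_X, ← MvPolynomial.algebraMap_eq, AlgHom.commutes, Algebra.algebraMap_eq_smul_one]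
    rw [h1, S_step n N k (by omega), smul_smul, pow_succ]

/-- left invariance under `H_n` -/
def LInv (n : ℕ) (F : MvPolynomial (Fin n) ℂ) : Prop :=
  ∀ h ∈ hyp n, single h 1 * (Phi n F * P n) = Phi n F * P n

theorem S_inv (n N : ℕ) (h : G n) (hh : h ∈ hyp n) : single h 1 * S n N n = S n N n := by
  apply MonoidAlgebra.ext
  ext s
  rw [coeff_single_mul_apply, one_mul, S_coeff, S_coeff, if_pos (GG_top _), if_pos (GG_top _),
    w_left _ _ ((hyp n).inv_mem hh)]

theorem LInv_Q (n N : ℕ) (hN : 0 < N) : LInv n (Q n N n) := by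
  intro h hh
  have h1 := Phi_Q n N n le_rfl
  rw [S_zero, mul_smul_comm] at h1
  have hw : (w N (1 : G n) : ℂ) ≠ 0 := by
    have := w_pos hN (1 : G n)
    exact_mod_cast this.ne'
  have h2 : Phi n (Q n N n) * P n = (w N (1 : G n) : ℂ)⁻¹ • (((N : ℂ) ^ n) • S n N n) := by
    rw [← h1, smul_smul, inv_mul_cancel₀ hw, one_smul]
  rw [h2, mul_smul_comm, mul_smul_comm, S_inv n N h hh]

theorem Q_top (n N : ℕ) : Q n N n = ∑ j ∈ Finset.range (n + 1),
    MvPolynomial.C ((N : ℂ) ^ (n - j)) * MvPolynomial.esymm (Fin n) ℂ j := by
  have h := MvPolynomial.prod_C_add_X_eq_sum_esymm ℂ (Fin n)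
  have h2 := congrArg (Polynomial.eval (MvPolynomial.C (N : ℂ))) h
  rw [Polynomial.eval_prod, Polynomial.eval_finsetSum] at h2
  simp only [Polynomial.eval_add, Polynomial.eval_X, Polynomial.eval_C, Polynomial.eval_mul,
    Polynomial.eval_pow, Fintype.card_fin] at h2
  unfold Q
  have hf : Finset.univ.filter (fun i : Fin n => i.1 < n) = Finset.univ := by
    ext i
    simp
  rw [hf, h2]
  apply Finset.sum_congr rfl
  intro j _
  rw [map_pow, mul_comm]

theorem LInv_esymm (n j : ℕ) (hj : j ≤ n) : LInv n (MvPolynomial.esymm (Fin n) ℂ j) := by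
  intro h hh
  -- the differences
  set D : ℕ → MonoidAlgebra ℂ (G n) := fun j =>
    single h 1 * (Phi n (MvPolynomial.esymm (Fin n) ℂ j) * P n) - Phi n (MvPolynomial.esymm (Fin n) ℂ j) * P n with hD
  have hsum : ∀ N : ℕ, 0 < N → ∑ j ∈ Finset.range (n + 1), ((N : ℂ) ^ (n - j)) • D j = 0 := by
    intro N hN
    have h1 := LInv_Q n N hN h hh
    rw [Q_top, map_sum, Finset.sum_mul, Finset.mul_sum, ← sub_eq_zero, ← Finset.sum_sub_distrib] at h1
    rw [← h1]
    apply Finset.sum_congr rfl
    intro j _
    rw [hD, map_mul, ← MvPolynomial.algebraMap_eq, AlgHom.commutes, Algebra.algebraMap_eq_smul_one,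
      smul_mul_assoc, one_mul, smul_mul_assoc, mul_smul_comm, smul_sub]
  have hz : ∀ s : G n, (D j).coeff s = 0 := by
    intro s
    set p : Polynomial ℂ := ∑ j ∈ Finset.range (n + 1), Polynomial.C ((D j).coeff s) * Polynomial.X ^ (n - j) with hp
    have hp0 : p = 0 := by
      apply Polynomial.eq_zero_of_infinite_isRoot
      apply Set.infinite_of_injective_forall_mem (f := fun N : ℕ => ((N + 1 : ℕ) : ℂ))
      · intro a b hab
        simpa using hab
      · intro N
        change Polynomial.eval _ p = 0
        have h1 := congrArg (fun x : MonoidAlgebra ℂ (G n) => x.coeff s) (hsum (N + 1) (by omega))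
        simp only [coeff_sum, Finsupp.finsetSum_apply, coeff_smul, Finsupp.smul_apply, smul_eq_mul,
          coeff_zero, Finsupp.coe_zero, Pi.zero_apply] at h1
        rw [hp, Polynomial.eval_finsetSum, ← h1]
        apply Finset.sum_congr rfl
        intro j _
        simp only [Polynomial.eval_mul, Polynomial.eval_C, Polynomial.eval_pow, Polynomial.eval_X]
        ring
    have hc := congrArg (fun p : Polynomial ℂ => p.coeff (n - j)) hp0
    simp only [hp, Polynomial.finsetSum_coeff, Polynomial.coeff_C_mul, Polynomial.coeff_X_pow,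
      Polynomial.coeff_zero] at hc
    rw [Finset.sum_eq_single j] at hc
    · simpa using hc
    · intro i hi hij
      rw [if_neg, mul_zero]
      rw [Finset.mem_range] at hi
      omega
    · intro h
      exfalso
      apply h
      rw [Finset.mem_range]
      omega
  have : D j = 0 := by
    apply MonoidAlgebra.ext
    ext s
    rw [hz s]
    rfl
  rw [hD] at this
  exact sub_eq_zero.1 this

theorem P_mul (n : ℕ) (y : MonoidAlgebra ℂ (G n)) (hy : ∀ h ∈ hyp n, single h 1 * y = y) :
    ∃ c : ℂ, c ≠ 0 ∧ y = c • (P n * y) := by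
  classical
  have h1 : P n * y = ((Finset.univ.filter (fun h : G n => h ∈ hyp n)).card : ℂ) • y := by
    unfold P
    rw [Finset.sum_mul, Finset.sum_congr rfl (g := fun _ => y)]
    · rw [Finset.sum_const, Nat.cast_smul_eq_nsmul]
    · intro h hh
      simp only [Finset.mem_filter, Finset.mem_univ, true_and] at hh
      exact hy h hh
  have h2 : ((Finset.univ.filter (fun h : G n => h ∈ hyp n)).card : ℂ) ≠ 0 := by
    have : 0 < (Finset.univ.filter (fun h : G n => h ∈ hyp n)).card := by
      rw [Finset.card_pos]
      exact ⟨1, by simp [(hyp n).one_mem]⟩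
    exact_mod_cast this.ne'
  refine ⟨_, inv_ne_zero h2, ?_⟩
  rw [h1, smul_smul, inv_mul_cancel₀ h2, one_smul]

theorem LInv_mul (n : ℕ) (F E : MvPolynomial (Fin n) ℂ) (hF : LInv n F) (hE : LInv n E) : LInv n (F * E) := by
  intro h hh
  obtain ⟨c, _, hc⟩ := P_mul n _ hE
  rw [map_mul, mul_assoc, hc]
  rw [mul_smul_comm, mul_smul_comm]
  congr 1
  rw [← mul_assoc (Phi n F), ← mul_assoc, hF h hh]

theorem LInv_symm (n : ℕ) (F : MvPolynomial (Fin n) ℂ) (hF : F.IsSymmetric) : LInv n F := by
  obtain ⟨q, hq⟩ := MvPolynomial.esymmAlgHom_surjective (σ := Fin n) (n := n) ℂ (by simp) ⟨F, hF⟩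
  have hq' : F = (MvPolynomial.esymmAlgHom (Fin n) ℂ n q : MvPolynomial (Fin n) ℂ) := by rw [hq]
  rw [hq']
  clear hq hq' hF F
  induction q using MvPolynomial.induction_on with
  | C r =>
    intro h hh
    rw [← MvPolynomial.algebraMap_eq, AlgHom.commutes]
    have : ((algebraMap ℂ (MvPolynomial.symmetricSubalgebra (Fin n) ℂ)) r : MvPolynomial (Fin n) ℂ) = algebraMap ℂ _ r := rfl
    rw [this, AlgHom.commutes, Algebra.algebraMap_eq_smul_one, smul_mul_assoc, one_mul, mul_smul_comm]
    congr 1
    have h1 := LInv_esymm n 0 (by omega) h hh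
    rw [MvPolynomial.esymm_zero, map_one, one_mul] at h1
    exact h1
  | add p q hp hq =>
    intro h hh
    rw [map_add, Subalgebra.coe_add, map_add, add_mul, mul_add, hp h hh, hq h hh]
  | mul_X p i hp =>
    rw [map_mul, Subalgebra.coe_mul]
    apply LInv_mul n _ _ hp
    have : ((MvPolynomial.esymmAlgHom (Fin n) ℂ n) (MvPolynomial.X i) : MvPolynomial (Fin n) ℂ) =
        MvPolynomial.esymm (Fin n) ℂ (i + 1) := by
      simp [MvPolynomial.esymmAlgHom]
    rw [this]
    exact LInv_esymm n _ (by omega)

theorem P_right (n : ℕ) (b : G n) (hb : b ∈ hyp n) : P n * single b 1 = P n := by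
  classical
  apply MonoidAlgebra.ext
  ext s
  rw [coeff_mul_single_apply, mul_one]
  have hc : ∀ s : G n, (P n).coeff s = if s ∈ hyp n then 1 else 0 := by
    intro s
    unfold P
    rw [coeff_sum, Finsupp.finsetSum_apply]
    simp only [coeff_single]
    rw [Finset.sum_filter, Finset.sum_eq_single s]
    · split_ifs <;> simp
    · intro b _ hb
      split_ifs
      · rw [Finsupp.single_apply, if_neg hb]
      · rfl
    · simp
  rw [hc, hc]
  have : s * b⁻¹ ∈ hyp n ↔ s ∈ hyp n := Subgroup.mul_mem_cancel_right _ ((hyp n).inv_mem hb)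
  simp only [this]

theorem mem_hecke_of_LInv (n : ℕ) (F : MvPolynomial (Fin n) ℂ) (hF : LInv n F) :
    Phi n F * P n ∈ hecke n := by
  intro a ha b hb s
  have h1 := hF a ha
  have h2 : (Phi n F * P n) * single b 1 = Phi n F * P n := by
    rw [mul_assoc, P_right n b hb]
  calc (Phi n F * P n).coeff (a * s * b) = (single a 1 * (Phi n F * P n)).coeff (a * s * b) := by rw [h1]
    _ = (Phi n F * P n).coeff (s * b) := by
      rw [coeff_single_mul_apply, one_mul, mul_assoc, inv_mul_cancel_left]
    _ = ((Phi n F * P n) * single b 1).coeff (s * b) := by rw [h2]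
    _ = (Phi n F * P n).coeff s := by
      rw [coeff_mul_single_apply, mul_one, mul_inv_cancel_right]

end Pool.Agent.R141.JMO
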