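import Pool.Agent.R141.JMO.Factor

namespace Pool.Agent.R141.JMO

open MonoidAlgebra

/-- `x` is a sum of group elements, and the group elements which occur form the set `A` -/
def Rep {n : ℕ} (x : MonoidAlgebra ℂ (G n)) (A : Set (G n)) : Prop :=
  ∃ T : Multiset (G n), x = (T.map (fun g => (single g 1 : MonoidAlgebra ℂ (G n)))).sum ∧ ∀ g, g ∈ T ↔ g ∈ A

theorem Rep.one {n : ℕ} : Rep (1 : MonoidAlgebra ℂ (G n)) {1} :=
  ⟨{1}, by rw [Multiset.map_singleton, Multiset.sum_singleton]; rfl, fun g => by simp⟩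

theorem Rep_single {n : ℕ} (g : G n) : Rep (MonoidAlgebra.single g 1 : MonoidAlgebra ℂ (G n)) {g} :=
  ⟨{g}, by rw [Multiset.map_singleton, Multiset.sum_singleton], fun g => by simp⟩

theorem Rep.mul {n : ℕ} {x y : MonoidAlgebra ℂ (G n)} {A B : Set (G n)} (hx : Rep x A) (hy : Rep y B) :
    Rep (x * y) {g | ∃ a ∈ A, ∃ b ∈ B, g = a * b} := by
  obtain ⟨T, hT, hTA⟩ := hx
  obtain ⟨U, hU, hUB⟩ := hy
  refine ⟨(T ×ˢ U).map (fun p => p.1 * p.2), ?_, ?_⟩
  · rw [hT, hU, Multiset.map_map]
    have h1 : ∀ p : G n × G n, ((fun g => (single g 1 : MonoidAlgebra ℂ (G n))) ∘ fun p : G n × G n => p.1 * p.2) p =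
        (fun p : G n × G n => (single p.1 1 : MonoidAlgebra ℂ (G n)) * single p.2 1) p := by
      intro p
      simp
    rw [Multiset.map_congr rfl (fun p _ => h1 p)]
    clear hT hU hTA hUB h1
    induction T using Multiset.induction_on with
    | empty => simp
    | cons a T ih =>
      rw [Multiset.cons_product, Multiset.map_add, Multiset.sum_add, ← ih, Multiset.map_cons,
        Multiset.sum_cons, add_mul, Multiset.map_map]
      congr 1
      exact (Multiset.sum_map_mul_left (s := U) (a := (single a 1 : MonoidAlgebra ℂ (G n)))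
        (f := fun b => (single b 1 : MonoidAlgebra ℂ (G n)))).symm
  · intro g
    simp only [Multiset.mem_map, Multiset.mem_product, Prod.exists, Set.mem_ofPred_eq, hTA, hUB]
    constructor
    · rintro ⟨a, b, ⟨ha, hb⟩, rfl⟩
      exact ⟨a, ha, b, hb, rfl⟩
    · rintro ⟨a, ha, b, hb, rfl⟩
      exact ⟨a, b, ⟨ha, hb⟩, rfl⟩

theorem Rep.sum {n : ℕ} {ι : Type*} (s : Finset ι) (f : ι → MonoidAlgebra ℂ (G n)) (A : ι → Set (G n))
    (h : ∀ i ∈ s, Rep (f i) (A i)) : Rep (∑ i ∈ s, f i) {g | ∃ i ∈ s, g ∈ A i} := by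
  classical
  induction s using Finset.induction_on with
  | empty => exact ⟨0, by simp, fun g => by simp⟩
  | insert a s ha ih =>
    obtain ⟨T, hT, hTA⟩ := h a (Finset.mem_insert_self _ _)
    obtain ⟨U, hU, hUB⟩ := ih (fun i hi => h i (Finset.mem_insert_of_mem hi))
    refine ⟨T + U, ?_, ?_⟩
    · rw [Finset.sum_insert ha, hT, hU, Multiset.map_add, Multiset.sum_add]
    · intro g
      rw [Multiset.mem_add, hTA, hUB]
      simp only [Set.mem_ofPred_eq, Finset.mem_insert]
      constructor
      · rintro (h | ⟨i, hi, h⟩)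
        · exact ⟨a, Or.inl rfl, h⟩
        · exact ⟨i, Or.inr hi, h⟩
      · rintro ⟨i, (rfl | hi), hg⟩
        · exact Or.inl hg
        · exact Or.inr ⟨i, hi, hg⟩

theorem Rep.congr {n : ℕ} {x : MonoidAlgebra ℂ (G n)} {A B : Set (G n)} (hx : Rep x A) (h : ∀ g, g ∈ A ↔ g ∈ B) :
    Rep x B := by
  obtain ⟨T, hT, hTA⟩ := hx
  exact ⟨T, hT, fun g => (hTA g).trans (h g)⟩

theorem Rep_jodd {n : ℕ} (i : Fin n) : Rep (jodd n i)
    {g | ∃ a : Fin (2 * n), a.1 < 2 * i.1 ∧ g = Equiv.swap a ⟨2 * i.1, by omega⟩} := by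
  unfold jodd jm
  refine Rep.congr (Rep.sum _ _ (fun a => {Equiv.swap a (⟨2 * i.1, by omega⟩ : Fin (2 * n))}) (fun a _ => Rep_single _)) ?_
  intro g
  simp only [Finset.mem_filter, Finset.mem_univ, true_and, Set.mem_singleton_iff, Set.mem_ofPred_eq,
    Fin.lt_def]

theorem Rep_pow {n : ℕ} (i : Fin n) (k : ℕ) : Rep (jodd n i ^ k)
    {g | ∃ s : List (Fin (2 * n)), s.length = k ∧ (∀ a ∈ s, a.1 < 2 * i.1) ∧
      g = star ((⟨2 * i.1, by omega⟩ : Fin (2 * n)) :: s)} := by
  induction k with
  | zero =>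
    rw [pow_zero]
    apply Rep.one.congr
    intro g
    simp only [Set.mem_singleton_iff, Set.mem_ofPred_eq]
    constructor
    · intro h
      exact ⟨[], rfl, by simp, by rw [h]; rfl⟩
    · rintro ⟨s, hs, _, rfl⟩
      rw [List.length_eq_zero_iff] at hs
      subst hs
      rfl
  | succ k ih =>
    rw [pow_succ']
    apply ((Rep_jodd i).mul ih).congr
    intro g
    simp only [Set.mem_ofPred_eq]
    constructor
    · rintro ⟨_, ⟨a, ha, rfl⟩, _, ⟨s, hs, hs2, rfl⟩, rfl⟩
      refine ⟨a :: s, by simp [hs], ?_, ?_⟩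
      · intro b hb
        rw [List.mem_cons] at hb
        rcases hb with h | h
        · rw [h]; exact ha
        · exact hs2 b h
      · rw [star_cons, star_cons, List.map_cons, List.prod_cons]
    · rintro ⟨s, hs, hs2, rfl⟩
      cases s with
      | nil => simp at hs
      | cons a s =>
        refine ⟨_, ⟨a, hs2 a List.mem_cons_self, rfl⟩, _, ⟨s, by simpa using hs, fun b hb => hs2 b (List.mem_cons_of_mem _ hb), rfl⟩, ?_⟩
        rw [star_cons, star_cons, List.map_cons, List.prod_cons]

theorem Rep_psum {n : ℕ} (k : ℕ) (hk : 0 < k) : Rep (Phi n (MvPolynomial.psum (Fin n) ℂ (k - 1)))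
    {g | ∃ l : List (Fin (2 * n)), valid l ∧ l.length = k ∧ g = star l} := by
  have h1 : Phi n (MvPolynomial.psum (Fin n) ℂ (k - 1)) = ∑ i : Fin n, jodd n i ^ (k - 1) := by
    unfold MvPolynomial.psum
    rw [map_sum]
    apply Finset.sum_congr rfl
    intro i _
    rw [map_pow, Phi_X]
  rw [h1]
  apply (Rep.sum _ _ _ (fun i _ => Rep_pow i (k - 1))).congr
  intro g
  simp only [Set.mem_ofPred_eq, Finset.mem_univ, true_and]
  constructor
  · rintro ⟨i, s, hs, hs2, rfl⟩
    exact ⟨_, ⟨i, s, rfl, hs2⟩, by simp [hs]; omega, rfl⟩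
  · rintro ⟨l, ⟨i, s, rfl, hs2⟩, hl, rfl⟩
    exact ⟨i, s, by rw [List.length_cons] at hl; omega, hs2, rfl⟩

/-- product of power sums -/
noncomputable def PS (n : ℕ) (ν : List ℕ) : MvPolynomial (Fin n) ℂ :=
  (ν.map (fun k => MvPolynomial.psum (Fin n) ℂ (k - 1))).prod

theorem PS_symm (n : ℕ) (ν : List ℕ) : (PS n ν).IsSymmetric := by
  unfold PS
  induction ν with
  | nil => exact MvPolynomial.IsSymmetric.one
  | cons k ν ih =>
    rw [List.map_cons, List.prod_cons]
    exact (MvPolynomial.psum_isSymmetric _ _ _).mul ih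

theorem Rep_PS {n : ℕ} (ν : List ℕ) (hν : ∀ k ∈ ν, 0 < k) : Rep (Phi n (PS n ν))
    {g | ∃ L : List (List (Fin (2 * n))), (∀ l ∈ L, valid l) ∧ L.map List.length = ν ∧ g = gL L} := by
  induction ν with
  | nil =>
    unfold PS
    rw [List.map_nil, List.prod_nil, map_one]
    apply Rep.one.congr
    intro g
    simp only [Set.mem_singleton_iff, Set.mem_ofPred_eq]
    constructor
    · intro h
      exact ⟨[], by simp, rfl, by rw [h]; rfl⟩
    · rintro ⟨L, _, hL, rfl⟩
      rw [List.map_eq_nil_iff] at hL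
      subst hL
      rfl
  | cons k ν ih =>
    have h1 : PS n (k :: ν) = MvPolynomial.psum (Fin n) ℂ (k - 1) * PS n ν := by
      unfold PS
      rw [List.map_cons, List.prod_cons]
    rw [h1, map_mul]
    apply ((Rep_psum k (hν k List.mem_cons_self)).mul (ih (fun k hk => hν k (List.mem_cons_of_mem _ hk)))).congr
    intro g
    simp only [Set.mem_ofPred_eq]
    constructor
    · rintro ⟨_, ⟨l, hl, hlk, rfl⟩, _, ⟨L, hL, hLν, rfl⟩, rfl⟩
      refine ⟨l :: L, ?_, ?_, ?_⟩
      · intro l1 hl1
        rw [List.mem_cons] at hl1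
        rcases hl1 with h | h
        · rw [h]; exact hl
        · exact hL l1 h
      · rw [List.map_cons, hlk, hLν]
      · unfold gL
        rw [List.map_cons, List.prod_cons]
    · rintro ⟨L, hL, hLν, rfl⟩
      cases L with
      | nil => simp at hLν
      | cons l L =>
        rw [List.map_cons, List.cons.injEq] at hLν
        refine ⟨_, ⟨l, hL l List.mem_cons_self, hLν.1, rfl⟩, _, ⟨L, fun l hl => hL l (List.mem_cons_of_mem _ hl), hLν.2, rfl⟩, ?_⟩
        unfold gL
        rw [List.map_cons, List.prod_cons]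

theorem P_coeff (n : ℕ) (s : G n) [Decidable (s ∈ hyp n)] : (P n).coeff s = if s ∈ hyp n then 1 else 0 := by
  classical
  unfold P
  rw [coeff_sum, Finsupp.finsetSum_apply]
  simp only [coeff_single]
  rw [Finset.sum_filter, Finset.sum_eq_single s]
  · split_ifs <;> simp
  · intro b _ hb
    split_ifs
    · rw [Finsupp.single_apply, if_neg hb]
    · rfl
  · simp

theorem Rep_coeff {n : ℕ} {x : MonoidAlgebra ℂ (G n)} {A : Set (G n)} (hx : Rep x A) (s : G n) :
    (x * P n).coeff s ≠ 0 ↔ ∃ g ∈ A, g⁻¹ * s ∈ hyp n := by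
  classical
  obtain ⟨T, hT, hTA⟩ := hx
  have h1 : ∀ T : Multiset (G n), ((T.map (fun g => (single g 1 : MonoidAlgebra ℂ (G n)))).sum * P n).coeff s =
      ((T.countP (fun g => g⁻¹ * s ∈ hyp n) : ℕ) : ℂ) := by
    intro T
    induction T using Multiset.induction_on with
    | empty => simp
    | cons a T ih =>
      rw [Multiset.map_cons, Multiset.sum_cons, add_mul, coeff_add, Finsupp.add_apply, ih,
        coeff_single_mul_apply, one_mul, P_coeff, Multiset.countP_cons]
      split_ifs <;> push_cast <;> ring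
  rw [hT, h1, Nat.cast_ne_zero, ← Nat.pos_iff_ne_zero, Multiset.countP_pos]
  constructor
  · rintro ⟨g, hg, hgs⟩
    exact ⟨g, (hTA g).1 hg, hgs⟩
  · rintro ⟨g, hg, hgs⟩
    exact ⟨g, (hTA g).2 hg, hgs⟩

/-- the key triangularity -/
theorem key {n : ℕ} (s0 : G n) : ∃ F : MvPolynomial (Fin n) ℂ, F.IsSymmetric ∧
    (Phi n F * P n).coeff s0 ≠ 0 ∧ ∀ s, (Phi n F * P n).coeff s ≠ 0 → (mv s).card < (mv s0).card ∨
      ∃ a ∈ hyp n, ∃ b ∈ hyp n, s = a * s0 * b := by
  obtain ⟨L0, hne, hnd, hlen, hin⟩ := exists_star _ s0 rfl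
  set ν := L0.map List.length with hν
  have hνpos : ∀ k ∈ ν, 0 < k := by
    intro k hk
    rw [hν, List.mem_map] at hk
    obtain ⟨l, hl, rfl⟩ := hk
    exact List.length_pos_iff.2 (hne l hl)
  have hνsum : ν.sum = L0.flatten.length := by rw [List.length_flatten]
  have hνn : ν.sum ≤ n := by
    rw [hνsum]
    have h1 : (L0.flatten.map pair).toFinset ⊆ Finset.range n := by
      intro k hk
      rw [List.mem_toFinset, List.mem_map] at hk
      obtain ⟨x, _, rfl⟩ := hk
      rw [Finset.mem_range]
      unfold pair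
      have := x.2
      omega
    have h2 := Finset.card_le_card h1
    rw [Finset.card_range, List.toFinset_card_of_nodup hnd, List.length_map] at h2
    exact h2
  have hrep := Rep_PS (n := n) ν hνpos
  -- all words with distinct pairs give the double coset of s0
  have hsame : ∀ L : List (List (Fin (2 * n))), L.map List.length = ν → (L.flatten.map pair).Nodup →
      ∃ a ∈ hyp n, ∃ b ∈ hyp n, gL L = a * s0 * b := by
    intro L hL hLnd
    obtain ⟨h, hh, hg⟩ := gL_conj L0 L hL.symm hnd hLnd
    refine ⟨h, hh, ((gL L0)⁻¹ * s0)⁻¹ * h⁻¹, (hyp n).mul_mem ((hyp n).inv_mem hin) ((hyp n).inv_mem hh), ?_⟩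
    rw [hg, mul_inv_rev, inv_inv]
    simp only [mul_assoc, mul_inv_cancel_left]
  refine ⟨PS n ν, PS_symm n ν, ?_, ?_⟩
  · obtain ⟨L, hL1, hL2, hL3, _⟩ := exists_valid (n := n) ν hνpos hνn
    have h1 : (Phi n (PS n ν) * P n).coeff (gL L) ≠ 0 := by
      rw [Rep_coeff hrep]
      exact ⟨gL L, ⟨L, hL2, hL1, rfl⟩, by rw [inv_mul_cancel]; exact (hyp n).one_mem⟩
    obtain ⟨a, ha, b, hb, hab⟩ := hsame L hL1 hL3
    have h2 := mem_hecke_of_LInv n _ (LInv_symm n _ (PS_symm n ν)) a ha b hb s0
    rw [hab, h2] at h1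
    exact h1
  · intro s hs
    rw [Rep_coeff hrep] at hs
    obtain ⟨g, ⟨L, hL2, hL1, rfl⟩, hgs⟩ := hs
    have hmvs : mv s = mv (gL L) := by
      have := mv_right (gL L) _ hgs
      rwa [mul_inv_cancel_left] at this
    have hlenL : L.flatten.length = L0.flatten.length := by
      rw [List.length_flatten, List.length_flatten, hL1, hν]
    have h1 := card_mv_gL L
    rcases Nat.lt_or_ge (mv s).card (mv s0).card with h | h
    · exact Or.inl h
    · right
      have h2 : (mv (gL L)).card = 2 * L.flatten.length := by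
        have := h1.1
        rw [hmvs] at h
        omega
      obtain ⟨a, ha, b, hb, hab⟩ := hsame L hL1 (h1.2 h2)
      refine ⟨a, ha, b * ((gL L)⁻¹ * s), (hyp n).mul_mem hb hgs, ?_⟩
      rw [← mul_assoc (a * s0), ← hab, mul_inv_cancel_left]

/-- surjectivity onto the Hecke algebra, for symmetric polynomials in `n` variables -/
theorem surj {n : ℕ} (x : MonoidAlgebra ℂ (G n)) (hx : x ∈ hecke n) :
    ∃ F : MvPolynomial (Fin n) ℂ, F.IsSymmetric ∧ x = Phi n F * P n := by
  classical
  -- outer induction on the bound, inner on the number of top elements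
  have main : ∀ K : ℕ, ∀ c : ℕ, ∀ x : MonoidAlgebra ℂ (G n), x ∈ hecke n →
      (∀ s, x.coeff s ≠ 0 → (mv s).card < K + 1) →
      (Finset.univ.filter (fun s => x.coeff s ≠ 0 ∧ (mv s).card = K)).card = c →
      ∃ F : MvPolynomial (Fin n) ℂ, F.IsSymmetric ∧ x = Phi n F * P n := by
    intro K
    induction K with
    | zero =>
      intro c
      induction c using Nat.strong_induction_on with
      | _ c ihc =>
      intro x hx hb hc
      by_cases h0 : ∀ s, x.coeff s = 0
      · refine ⟨0, MvPolynomial.IsSymmetric.zero, ?_⟩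
        rw [map_zero, zero_mul]
        apply MonoidAlgebra.ext
        ext s
        rw [h0 s]
        rfl
      push Not at h0
      obtain ⟨s0, hs0⟩ := h0
      obtain ⟨F, hF, hF1, hF2⟩ := key s0
      set y := Phi n F * P n with hy
      have hyH : y ∈ hecke n := mem_hecke_of_LInv n _ (LInv_symm n _ hF)
      set t := x.coeff s0 / y.coeff s0 with ht
      have hx'H : x - t • y ∈ hecke n := by
        intro a ha b hb s
        rw [coeff_sub, Finsupp.sub_apply, Finsupp.sub_apply, coeff_smul, Finsupp.smul_apply,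
          Finsupp.smul_apply, hx a ha b hb s, hyH a ha b hb s]
      have hs0K : (mv s0).card = 0 := by have := hb s0 hs0; omega
      have hyne : ∀ s, y.coeff s ≠ 0 → ∃ a ∈ hyp n, ∃ b ∈ hyp n, s = a * s0 * b := by
        intro s hs
        rcases hF2 s hs with h | h
        · omega
        · exact h
      have hz : ∀ s, (x - t • y).coeff s ≠ 0 → x.coeff s ≠ 0 := by
        intro s hs hxs
        apply hs
        rw [coeff_sub, Finsupp.sub_apply, coeff_smul, Finsupp.smul_apply, hxs]
        by_cases hys : y.coeff s = 0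
        · rw [hys]; simp
        · obtain ⟨a, ha, b, hb, rfl⟩ := hyne s hys
          rw [hx a ha b hb s0] at hxs
          exact absurd hxs hs0
      have hz0 : (x - t • y).coeff s0 = 0 := by
        rw [coeff_sub, Finsupp.sub_apply, coeff_smul, Finsupp.smul_apply, ht, smul_eq_mul]
        field_simp
        ring
      obtain ⟨F', hF', hF'x⟩ := ihc _ (by
        rw [← hc]
        apply Finset.card_lt_card
        rw [Finset.ssubset_iff_of_subset]
        · refine ⟨s0, ?_, ?_⟩
          · simp only [Finset.mem_filter, Finset.mem_univ, true_and]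
            exact ⟨hs0, hs0K⟩
          · simp only [Finset.mem_filter, Finset.mem_univ, true_and]
            exact fun h => h.1 hz0
        · intro s hs
          simp only [Finset.mem_filter, Finset.mem_univ, true_and] at hs ⊢
          exact ⟨hz s hs.1, hs.2⟩) (x - t • y) hx'H (fun s hs => hb s (hz s hs)) rfl
      refine ⟨F' + MvPolynomial.C t * F, hF'.add ((MvPolynomial.IsSymmetric.C t).mul hF), ?_⟩
      rw [map_add, add_mul, ← hF'x, map_mul, ← MvPolynomial.algebraMap_eq, AlgHom.commutes,
        Algebra.algebraMap_eq_smul_one, smul_mul_assoc, one_mul, smul_mul_assoc, ← hy]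
      abel
    | succ K ihK =>
      intro c
      induction c using Nat.strong_induction_on with
      | _ c ihc =>
      intro x hx hb hc
      by_cases h0 : ∀ s, x.coeff s ≠ 0 → (mv s).card < K + 1
      · exact ihK _ x hx h0 rfl
      push Not at h0
      obtain ⟨s0, hs0, hs0K'⟩ := h0
      have hs0K : (mv s0).card = K + 1 := by have := hb s0 hs0; omega
      obtain ⟨F, hF, hF1, hF2⟩ := key s0
      set y := Phi n F * P n with hy
      have hyH : y ∈ hecke n := mem_hecke_of_LInv n _ (LInv_symm n _ hF)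
      set t := x.coeff s0 / y.coeff s0 with ht
      have hx'H : x - t • y ∈ hecke n := by
        intro a ha b hb s
        rw [coeff_sub, Finsupp.sub_apply, Finsupp.sub_apply, coeff_smul, Finsupp.smul_apply,
          Finsupp.smul_apply, hx a ha b hb s, hyH a ha b hb s]
      have hz : ∀ s, (x - t • y).coeff s ≠ 0 → x.coeff s ≠ 0 ∨ (mv s).card < K + 1 := by
        intro s hs
        by_cases hxs : x.coeff s = 0
        · right
          by_contra hcon
          apply hs
          rw [coeff_sub, Finsupp.sub_apply, coeff_smul, Finsupp.smul_apply, hxs]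
          by_cases hys : y.coeff s = 0
          · rw [hys]; simp
          · rcases hF2 s hys with h | ⟨a, ha, b, hb, rfl⟩
            · omega
            · rw [hx a ha b hb s0] at hxs
              exact absurd hxs hs0
        · exact Or.inl hxs
      have hz0 : (x - t • y).coeff s0 = 0 := by
        rw [coeff_sub, Finsupp.sub_apply, coeff_smul, Finsupp.smul_apply, ht, smul_eq_mul]
        field_simp
        ring
      obtain ⟨F', hF', hF'x⟩ := ihc _ (by
        rw [← hc]
        apply Finset.card_lt_card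
        rw [Finset.ssubset_iff_of_subset]
        · refine ⟨s0, ?_, ?_⟩
          · simp only [Finset.mem_filter, Finset.mem_univ, true_and]
            exact ⟨hs0, hs0K⟩
          · simp only [Finset.mem_filter, Finset.mem_univ, true_and]
            exact fun h => h.1 hz0
        · intro s hs
          simp only [Finset.mem_filter, Finset.mem_univ, true_and] at hs ⊢
          refine ⟨?_, hs.2⟩
          rcases hz s hs.1 with h | h
          · exact h
          · omega) (x - t • y) hx'H (by
            intro s hs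
            rcases hz s hs with h | h
            · exact hb s h
            · omega) rfl
      refine ⟨F' + MvPolynomial.C t * F, hF'.add ((MvPolynomial.IsSymmetric.C t).mul hF), ?_⟩
      rw [map_add, add_mul, ← hF'x, map_mul, ← MvPolynomial.algebraMap_eq, AlgHom.commutes,
        Algebra.algebraMap_eq_smul_one, smul_mul_assoc, one_mul, smul_mul_assoc, ← hy]
      abel
  refine main (2 * n) _ x hx ?_ rfl
  intro s _
  have := Finset.card_le_univ (mv s)
  rw [Fintype.card_fin] at this
  omega

end Pool.Agent.R141.JMO
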