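import Pool.Agent.R141.JMO.Defs

namespace Pool.Agent.R141.JMO

open MonoidAlgebra

theorem fix_lt {n : ℕ} {k : Fin (2 * n)} {g : G n} (hg : ∀ x, k ≤ x → g x = x) {x : Fin (2 * n)}
    (hx : x < k) : g x < k := by
  by_contra hcon
  push Not at hcon
  have h1 := hg _ hcon
  have h2 := g.injective h1
  rw [h2] at hcon
  exact absurd hx (not_lt.2 hcon)

theorem fix_inv {n : ℕ} {k : Fin (2 * n)} {g : G n} (hg : ∀ x, k ≤ x → g x = x) :
    ∀ x, k ≤ x → g⁻¹ x = x := by
  intro x hx
  rw [Equiv.Perm.inv_eq_iff_eq]
  exact (hg x hx).symm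

theorem comm_fix {n : ℕ} (k : Fin (2 * n)) (g : G n) (hg : ∀ x, k ≤ x → g x = x) (r : ℂ) :
    Commute (single g r) (jm n k) := by
  unfold Commute SemiconjBy
  rw [jm, Finset.mul_sum, Finset.sum_mul]
  refine Finset.sum_equiv g ?_ ?_
  · intro i
    simp only [Finset.mem_filter, Finset.mem_univ, true_and]
    constructor
    · intro h
      exact fix_lt hg h
    · intro h
      have := fix_lt (fix_inv hg) h
      simpa using this
  · intro i hi
    rw [single_mul_single, single_mul_single, mul_one, one_mul]
    congr 1
    have := Equiv.mul_swap_eq_swap_mul g i k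
    rw [this, hg k le_rfl]

theorem jm_comm {n : ℕ} (k l : Fin (2 * n)) : Commute (jm n k) (jm n l) := by
  have key : ∀ k l : Fin (2 * n), k < l → Commute (jm n k) (jm n l) := by
    intro k l hkl
    have h : Commute (∑ i ∈ Finset.univ.filter (fun i => i < k),
        (MonoidAlgebra.single (Equiv.swap i k) 1 : MonoidAlgebra ℂ (G n))) (jm n l) := by
      apply Commute.sum_left
      intro i hi
      simp only [Finset.mem_filter, Finset.mem_univ, true_and] at hi
      apply comm_fix
      intro x hx
      rw [Equiv.swap_apply_of_ne_of_ne]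
      · exact (lt_of_lt_of_le (hi.trans hkl) hx).ne'
      · exact (lt_of_lt_of_le hkl hx).ne'
    exact h
  rcases lt_trichotomy k l with h | h | h
  · exact key k l h
  · subst h; exact Commute.refl _
  · exact (key l k h).symm

theorem prod_pow_add {A ι : Type*} [Monoid A] (c : ι → A) (hc : ∀ i j, Commute (c i) (c j))
    (d e : ι → ℕ) (l : List ι) :
    (l.map (fun i => c i ^ (d i + e i))).prod =
      (l.map (fun i => c i ^ d i)).prod * (l.map (fun i => c i ^ e i)).prod := by
  have hcl : ∀ (i : ι) (m : ℕ) (f : ι → ℕ) (l : List ι),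
      Commute (c i ^ m) (l.map (fun i => c i ^ f i)).prod := by
    intro i m f l
    induction l with
    | nil => simp
    | cons a l ih =>
      simp only [List.map_cons, List.prod_cons]
      exact Commute.mul_right ((hc i a).pow_pow m (f a)) ih
  induction l with
  | nil => simp
  | cons a l ih =>
    simp only [List.map_cons, List.prod_cons]
    rw [ih, pow_add]
    have h := (hcl a (e a) d l).eq
    calc c a ^ d a * c a ^ e a * ((List.map (fun i => c i ^ d i) l).prod * (List.map (fun i => c i ^ e i) l).prod)
        = c a ^ d a * (c a ^ e a * (List.map (fun i => c i ^ d i) l).prod) * (List.map (fun i => c i ^ e i) l).prod := by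
          simp only [mul_assoc]
      _ = c a ^ d a * ((List.map (fun i => c i ^ d i) l).prod * c a ^ e a) * (List.map (fun i => c i ^ e i) l).prod := by
          rw [h]
      _ = _ := by simp only [mul_assoc]

theorem mon_zero (n : ℕ) : mon n 0 = 1 := by
  unfold mon
  apply List.prod_eq_one
  intro x hx
  simp only [List.mem_map] at hx
  obtain ⟨i, _, rfl⟩ := hx
  simp

theorem mon_add (n : ℕ) (d e : Fin n →₀ ℕ) : mon n (d + e) = mon n d * mon n e := by
  unfold mon
  exact prod_pow_add (jodd n) (fun i j => jm_comm _ _) d e _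

/-- evaluation of polynomials in `n` variables at the odd Jucys-Murphy elements -/
noncomputable def Phi (n : ℕ) : MvPolynomial (Fin n) ℂ →ₐ[ℂ] MonoidAlgebra ℂ (G n) :=
  AddMonoidAlgebra.lift ℂ _ _
    { toFun := fun d => mon n (Multiplicative.toAdd d)
      map_one' := mon_zero n
      map_mul' := fun d e => mon_add n _ _ }

theorem Phi_monomial (n : ℕ) (d : Fin n →₀ ℕ) (r : ℂ) :
    Phi n (MvPolynomial.monomial d r) = r • mon n d := by
  have := AddMonoidAlgebra.lift_single (R := ℂ) (A := MonoidAlgebra ℂ (G n)) (M := Fin n →₀ ℕ)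
    { toFun := fun d => mon n (Multiplicative.toAdd d)
      map_one' := mon_zero n
      map_mul' := fun d e => mon_add n _ _ } d r
  exact this

theorem Phi_X (n : ℕ) (i : Fin n) : Phi n (MvPolynomial.X i) = jodd n i := by
  unfold MvPolynomial.X
  rw [Phi_monomial, one_smul]
  unfold mon
  have h : ∀ l : List (Fin n), l.Nodup →
      (l.map (fun j => jodd n j ^ (Finsupp.single i 1 : Fin n →₀ ℕ) j)).prod =
        if i ∈ l then jodd n i else 1 := by
    intro l
    induction l with
    | nil => simp
    | cons a l ih =>
      intro hl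
      rw [List.nodup_cons] at hl
      simp only [List.map_cons, List.prod_cons, ih hl.2, List.mem_cons]
      by_cases hia : i = a
      · subst hia
        simp [hl.1]
      · simp [Finsupp.single_apply, hia]
  rw [h _ (List.nodup_finRange n)]
  simp

end Pool.Agent.R141.JMO
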