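import Pool.Agent.R141.JMO.Jucys

namespace Pool.Agent.R141.JMO

/-- the pair containing a letter -/
def pair {n : ℕ} (x : Fin (2 * n)) : ℕ := x.1 / 2

theorem pair_eps {n : ℕ} (x : Fin (2 * n)) : pair (eps n x) = pair x := by
  unfold pair
  rw [eps_val]
  split_ifs <;> omega

theorem pair_eq_iff {n : ℕ} {x y : Fin (2 * n)} : pair x = pair y ↔ (y = x ∨ y = eps n x) := by
  constructor
  · intro h
    unfold pair at h
    by_cases hxy : y = x
    · exact Or.inl hxy
    · right
      apply Fin.ext
      have : y.1 ≠ x.1 := fun h => hxy (Fin.ext h)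
      rw [eps_val]
      split_ifs <;> omega
  · intro h
    rcases h with h | h
    · rw [h]
    · rw [h, pair_eps]

theorem pair_hyp {n : ℕ} {h : G n} (hh : h ∈ hyp n) {x y : Fin (2 * n)} :
    pair (h x) = pair (h y) ↔ pair x = pair y := by
  rw [pair_eq_iff, pair_eq_iff, ← hyp_comm hh, h.injective.eq_iff, h.injective.eq_iff]

/-- the product of the transpositions `(s j)`, for a list `j :: s` -/
def star {n : ℕ} : List (Fin (2 * n)) → G n
  | [] => 1
  | j :: s => (s.map (fun a => Equiv.swap a j)).prod

/-- the product of the stars of a list of lists -/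
def gL {n : ℕ} (L : List (List (Fin (2 * n)))) : G n := (L.map star).prod

theorem star_cons {n : ℕ} (j : Fin (2 * n)) (s : List (Fin (2 * n))) :
    star (j :: s) = (s.map (fun a => Equiv.swap a j)).prod := rfl

theorem star_fix {n : ℕ} (l : List (Fin (2 * n))) (x : Fin (2 * n)) (hx : x ∉ l) : star l x = x := by
  cases l with
  | nil => rfl
  | cons j s =>
    rw [List.mem_cons, not_or] at hx
    rw [star_cons]
    induction s with
    | nil => rfl
    | cons a s ih =>
      rw [List.map_cons, List.prod_cons, Equiv.Perm.mul_apply]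
      have hxa : x ≠ a := fun h => hx.2 (by rw [h]; exact List.mem_cons_self)
      have hxs : x ∉ s := fun h => hx.2 (List.mem_cons_of_mem _ h)
      rw [ih ⟨hx.1, hxs⟩, Equiv.swap_apply_of_ne_of_ne hxa hx.1]

theorem gL_fix {n : ℕ} (L : List (List (Fin (2 * n)))) (x : Fin (2 * n)) (hx : x ∉ L.flatten) :
    gL L x = x := by
  induction L with
  | nil => rfl
  | cons l L ih =>
    unfold gL at ih ⊢
    rw [List.map_cons, List.prod_cons, Equiv.Perm.mul_apply]
    rw [List.flatten_cons, List.mem_append, not_or] at hx
    rw [ih hx.2, star_fix l x hx.1]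

theorem star_map {n : ℕ} (h : G n) (l : List (Fin (2 * n))) : star (l.map h) = h * star l * h⁻¹ := by
  cases l with
  | nil => simp [star]
  | cons j s =>
    rw [List.map_cons, star_cons, star_cons]
    induction s with
    | nil => simp
    | cons a s ih =>
      rw [List.map_cons, List.map_cons, List.prod_cons, List.map_cons, List.prod_cons, ih,
        Equiv.swap_apply_apply]
      simp only [mul_assoc, inv_mul_cancel_left]

theorem gL_map {n : ℕ} (h : G n) (L : List (List (Fin (2 * n)))) :
    gL (L.map (List.map h)) = h * gL L * h⁻¹ := by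
  unfold gL
  induction L with
  | nil => simp
  | cons l L ih =>
    rw [List.map_cons, List.map_cons, List.prod_cons, List.map_cons, List.prod_cons, ih, star_map]
    simp only [mul_assoc, inv_mul_cancel_left]

/-- the letters on which the matching of `s` differs from the standard one -/
def mv {n : ℕ} (s : G n) : Finset (Fin (2 * n)) := Finset.univ.filter (fun x => M s x ≠ eps n x)

theorem mem_mv {n : ℕ} {s : G n} {x : Fin (2 * n)} : x ∈ mv s ↔ M s x ≠ eps n x := by
  simp [mv]

theorem M_right {n : ℕ} (s h : G n) (hh : h ∈ hyp n) : M (s * h) = M s := by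
  have h1 : h * eps n = eps n * h := Equiv.ext (fun x => hyp_comm hh x)
  unfold M
  rw [mul_inv_rev]
  calc s * h * eps n * (h⁻¹ * s⁻¹) = s * (h * eps n) * h⁻¹ * s⁻¹ := by simp only [mul_assoc]
    _ = s * (eps n * h) * h⁻¹ * s⁻¹ := by rw [h1]
    _ = _ := by simp only [mul_assoc, mul_inv_cancel_left]

theorem mv_right {n : ℕ} (s h : G n) (hh : h ∈ hyp n) : mv (s * h) = mv s := by
  unfold mv
  rw [M_right s h hh]

theorem M_left {n : ℕ} (h s : G n) (x : Fin (2 * n)) : M (h * s) (h x) = h (M s x) := by
  simp only [M, mul_inv_rev, Equiv.Perm.mul_apply]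
  congr 3
  congr 1
  exact Equiv.symm_apply_apply h x

theorem mv_left {n : ℕ} (s h : G n) (hh : h ∈ hyp n) : (mv (h * s)).card = (mv s).card := by
  symm
  apply Finset.card_bij (fun x _ => h x)
  · intro x hx
    rw [mem_mv] at hx ⊢
    rw [M_left, ← hyp_comm hh]
    exact fun hc => hx (h.injective hc)
  · intro a _ b _ hab
    exact h.injective hab
  · intro y hy
    refine ⟨h⁻¹ y, ?_, ?_⟩
    · rw [mem_mv] at hy ⊢
      intro hc
      apply hy
      have hy2 : h (h⁻¹ y) = y := Equiv.apply_symm_apply h y
      rw [← hy2, M_left, ← hyp_comm hh, hc]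
    · exact Equiv.apply_symm_apply h y

/-- the letters in given pairs -/
def inP {n : ℕ} (A : Finset ℕ) : Finset (Fin (2 * n)) := Finset.univ.filter (fun x => pair x ∈ A)

theorem card_inP {n : ℕ} (A : Finset ℕ) : (inP A : Finset (Fin (2 * n))).card ≤ 2 * A.card := by
  have h : ((inP A : Finset (Fin (2 * n))).image (fun x => (pair x, x.1 % 2))).card ≤ (A ×ˢ Finset.range 2).card := by
    apply Finset.card_le_card
    intro p hp
    rw [Finset.mem_image] at hp
    obtain ⟨x, hx, rfl⟩ := hp
    simp only [inP, Finset.mem_filter, Finset.mem_univ, true_and] at hx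
    rw [Finset.mem_product]
    exact ⟨hx, Finset.mem_range.2 (Nat.mod_lt _ (by norm_num))⟩
  rw [Finset.card_image_of_injOn, Finset.card_product, Finset.card_range] at h
  · omega
  · intro x _ y _ hxy
    simp only [Prod.mk.injEq, pair] at hxy
    apply Fin.ext
    omega

theorem mv_gL {n : ℕ} (L : List (List (Fin (2 * n)))) :
    mv (gL L) ⊆ inP (L.flatten.map pair).toFinset := by
  intro x hx
  simp only [inP, Finset.mem_filter, Finset.mem_univ, true_and, List.mem_toFinset, List.mem_map]
  by_contra hcon
  push Not at hcon
  have h1 : x ∉ L.flatten := fun h => hcon x h rfl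
  have h2 : eps n x ∉ L.flatten := fun h => hcon _ h (pair_eps x)
  rw [mem_mv] at hx
  apply hx
  unfold M
  rw [Equiv.Perm.mul_apply, Equiv.Perm.mul_apply]
  have h3 : (gL L)⁻¹ x = x := by
    rw [Equiv.Perm.inv_eq_iff_eq]
    exact (gL_fix L x h1).symm
  rw [h3, gL_fix L _ h2]

theorem card_mv_gL {n : ℕ} (L : List (List (Fin (2 * n)))) :
    (mv (gL L)).card ≤ 2 * L.flatten.length ∧
      ((mv (gL L)).card = 2 * L.flatten.length → (L.flatten.map pair).Nodup) := by
  have h1 := Finset.card_le_card (mv_gL L)
  have h2 := card_inP (n := n) (L.flatten.map pair).toFinset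
  have h3 := List.toFinset_card_le (L.flatten.map (pair (n := n)))
  rw [List.length_map] at h3
  refine ⟨by omega, fun h => ?_⟩
  have h4 : (((L.flatten.map pair : List ℕ)) : Multiset ℕ).toFinset.card = Multiset.card ((L.flatten.map pair : List ℕ) : Multiset ℕ) := by
    have e1 : Multiset.card ((L.flatten.map pair : List ℕ) : Multiset ℕ) = L.flatten.length := by
      rw [Multiset.coe_card, List.length_map]
    have e2 : (((L.flatten.map pair : List ℕ)) : Multiset ℕ).toFinset = (L.flatten.map pair).toFinset := rfl
    rw [e1, e2]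
    omega
  rw [Multiset.toFinset_card_eq_card_iff_nodup] at h4
  exact h4

/-- `H_n` acts transitively on tuples of letters from distinct pairs -/
theorem trans_H {n : ℕ} : ∀ X Y : List (Fin (2 * n)), X.length = Y.length → (X.map pair).Nodup →
    (Y.map pair).Nodup → ∃ h ∈ hyp n, X.map h = Y := by
  intro X
  induction X with
  | nil =>
    intro Y hl _ _
    have : Y = [] := List.length_eq_zero_iff.1 (by rw [← hl]; rfl)
    exact ⟨1, (hyp n).one_mem, by rw [this]; rfl⟩
  | cons x X ih =>
    intro Y hl hX hY
    cases Y with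
    | nil => simp at hl
    | cons y Y =>
      rw [List.map_cons, List.nodup_cons] at hX hY
      obtain ⟨h0, hh0, hXY⟩ := ih Y (by simpa using hl) hX.2 hY.2
      set x' := h0 x with hx'
      have hx'Y : ∀ z ∈ Y, pair z ≠ pair x' := by
        intro z hz hzx
        rw [← hXY, List.mem_map] at hz
        obtain ⟨u, hu, rfl⟩ := hz
        rw [hx', pair_hyp hh0] at hzx
        exact hX.1 (List.mem_map.2 ⟨u, hu, hzx⟩)
      have hyY : ∀ z ∈ Y, pair z ≠ pair y := fun z hz hzy => hY.1 (List.mem_map.2 ⟨z, hz, hzy⟩)
      have hmove : ∃ h1 ∈ hyp n, h1 x' = y ∧ ∀ z, pair z ≠ pair x' → pair z ≠ pair y → h1 z = z := by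
        by_cases hp : pair y = pair x'
        · rw [pair_eq_iff] at hp
          rcases hp with hp | hp
          · exact ⟨1, (hyp n).one_mem, hp, fun _ _ _ => rfl⟩
          · refine ⟨Equiv.swap y (eps n y), ?_, ?_, ?_⟩
            · rw [mem_hyp]
              intro z
              have e1 : Equiv.swap y (eps n y) * eps n = eps n * Equiv.swap y (eps n y) := by
                rw [Equiv.mul_swap_eq_swap_mul, eps_eps, Equiv.swap_comm]
              exact DFunLike.congr_fun e1 z
            · rw [hp]; exact Equiv.swap_apply_right _ _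
            · intro z _ hz2
              apply Equiv.swap_apply_of_ne_of_ne
              · intro h; exact hz2 (by rw [h])
              · intro h; exact hz2 (by rw [h, pair_eps])
        · have n1 : x' ≠ y := fun h => hp (by rw [h])
          have n2 : x' ≠ eps n y := fun h => hp (by rw [h, pair_eps])
          have n3 : eps n x' ≠ y := fun h => hp (by rw [← h, pair_eps])
          have n4 : eps n x' ≠ eps n y := fun h => n1 ((eps n).injective h)
          refine ⟨Equiv.swap x' y * Equiv.swap (eps n x') (eps n y), ?_, ?_, ?_⟩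
          · rw [mem_hyp]
            have hcomm : Equiv.swap x' y * Equiv.swap (eps n x') (eps n y) =
                Equiv.swap (eps n x') (eps n y) * Equiv.swap x' y := by
              rw [Equiv.mul_swap_eq_swap_mul, Equiv.swap_apply_of_ne_of_ne (eps_ne x') n3,
                Equiv.swap_apply_of_ne_of_ne n2.symm (eps_ne y)]
            intro z
            have e1 : (Equiv.swap x' y * Equiv.swap (eps n x') (eps n y)) * eps n =
                eps n * (Equiv.swap x' y * Equiv.swap (eps n x') (eps n y)) := by
              rw [← mul_assoc, Equiv.mul_swap_eq_swap_mul (eps n) x' y, mul_assoc, mul_assoc,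
                Equiv.mul_swap_eq_swap_mul (eps n) (eps n x') (eps n y), eps_eps, eps_eps,
                ← mul_assoc, ← mul_assoc, hcomm]
            exact DFunLike.congr_fun e1 z
          · rw [Equiv.Perm.mul_apply, Equiv.swap_apply_of_ne_of_ne (eps_ne x').symm n2,
              Equiv.swap_apply_left]
          · intro z hz1 hz2
            rw [Equiv.Perm.mul_apply, Equiv.swap_apply_of_ne_of_ne (a := eps n x') (b := eps n y),
              Equiv.swap_apply_of_ne_of_ne]
            · intro h; exact hz1 (by rw [h])
            · intro h; exact hz2 (by rw [h])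
            · intro h; exact hz1 (by rw [h, pair_eps])
            · intro h; exact hz2 (by rw [h, pair_eps])
      obtain ⟨h1, hh1, h1x, h1f⟩ := hmove
      refine ⟨h1 * h0, (hyp n).mul_mem hh1 hh0, ?_⟩
      rw [List.map_cons, Equiv.Perm.mul_apply, ← hx', h1x]
      congr 1
      calc X.map (h1 * h0) = (X.map h0).map h1 := by
            rw [List.map_map]; rfl
        _ = Y.map h1 := by rw [hXY]
        _ = Y.map id := by
            apply List.map_congr_left
            intro z hz
            exact h1f z (hx'Y z hz) (hyY z hz)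
        _ = Y := List.map_id Y

theorem gL_conj {n : ℕ} (L L' : List (List (Fin (2 * n)))) (hs : L.map List.length = L'.map List.length)
    (hL : (L.flatten.map pair).Nodup) (hL' : (L'.flatten.map pair).Nodup) :
    ∃ h ∈ hyp n, gL L' = h * gL L * h⁻¹ := by
  have hlen : L.flatten.length = L'.flatten.length := by
    rw [List.length_flatten, List.length_flatten, hs]
  obtain ⟨h, hh, hmap⟩ := trans_H L.flatten L'.flatten hlen hL hL'
  refine ⟨h, hh, ?_⟩
  have : L.map (List.map h) = L' := by
    rw [List.eq_iff_flatten_eq]
    constructor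
    · rw [← hmap, List.map_flatten]
    · rw [← hs, List.map_map]
      apply List.map_congr_left
      intro l _
      simp
  rw [← this, gL_map]

end Pool.Agent.R141.JMO
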