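import Pool.Agent.R141.JMO.Main

namespace Pool.Agent.R141.JMO

theorem evalJ_eq (n : ℕ) (F : (ℕ →₀ ℕ) → ℂ) (p : MvPolynomial (Fin n) ℂ)
    (h : ∀ d : Fin n →₀ ℕ, MvPolynomial.coeff d p = F (d.embDomain Fin.valEmbedding)) :
    evalJ n F = Phi n p := by
  unfold evalJ
  rw [finsum_eq_sum_of_support_subset (s := p.support)]
  · conv_rhs => rw [MvPolynomial.as_sum p, map_sum]
    apply Finset.sum_congr rfl
    intro d _
    rw [Phi_monomial, h]
  · intro d hd
    rw [Function.mem_support] at hd
    rw [Finset.mem_coe, MvPolynomial.mem_support_iff, h]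
    intro h0
    apply hd
    rw [h0, zero_smul]

theorem emb_equivMap {n : ℕ} (e : Equiv.Perm (Fin n)) (d : Fin n →₀ ℕ) :
    (d.equivMapDomain e).embDomain Fin.valEmbedding =
      (d.embDomain Fin.valEmbedding).equivMapDomain (e.viaFintypeEmbedding Fin.valEmbedding) := by
  ext k
  rw [Finsupp.equivMapDomain_apply]
  set E := e.viaFintypeEmbedding Fin.valEmbedding with hE
  by_cases hk : k ∈ Set.range (Fin.valEmbedding (n := n))
  · obtain ⟨i, rfl⟩ := hk
    rw [Finsupp.embDomain_apply_self, Finsupp.equivMapDomain_apply]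
    have h1 : E.symm (Fin.valEmbedding i) = Fin.valEmbedding (e.symm i) := by
      rw [Equiv.symm_apply_eq, hE, Equiv.Perm.viaFintypeEmbedding_apply_image, Equiv.apply_symm_apply]
    rw [h1, Finsupp.embDomain_apply_self]
  · have h1 : E.symm k = k := by
      rw [Equiv.symm_apply_eq, hE, Equiv.Perm.viaFintypeEmbedding_apply_notMem_range _ _ hk]
    rw [h1, Finsupp.embDomain_of_notMem_range _ _ _ hk, Finsupp.embDomain_of_notMem_range _ _ _ hk]

theorem symm_iff {n : ℕ} (p : MvPolynomial (Fin n) ℂ) : p.IsSymmetric ↔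
    ∀ (e : Equiv.Perm (Fin n)) (d : Fin n →₀ ℕ), MvPolynomial.coeff (d.equivMapDomain e) p = MvPolynomial.coeff d p := by
  constructor
  · intro hp e d
    have h1 := hp e
    have h2 := MvPolynomial.coeff_rename_mapDomain e e.injective p d
    rw [h1, ← Finsupp.equivMapDomain_eq_mapDomain] at h2
    exact h2
  · intro h e
    apply MvPolynomial.ext
    intro d
    have h2 := MvPolynomial.coeff_rename_mapDomain e e.injective p (d.equivMapDomain e.symm)
    rw [← Finsupp.equivMapDomain_eq_mapDomain, ← Finsupp.equivMapDomain_trans, h] at h2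
    simpa using h2

theorem toPoly {n : ℕ} (F : (ℕ →₀ ℕ) → ℂ) (hF : IsSymFun F) :
    ∃ p : MvPolynomial (Fin n) ℂ, p.IsSymmetric ∧ evalJ n F = Phi n p := by
  classical
  obtain ⟨⟨D, hD⟩, hs⟩ := hF
  have hfin : Set.Finite {d : Fin n →₀ ℕ | F (d.embDomain Fin.valEmbedding) ≠ 0} := by
    apply Set.Finite.subset (Set.finite_Icc (0 : Fin n →₀ ℕ) (Finsupp.equivFunOnFinite.symm fun _ => D))
    intro d hd
    rw [Set.mem_ofPred_eq] at hd
    refine ⟨bot_le, ?_⟩
    intro i
    change d i ≤ D
    by_contra hcon
    push Not at hcon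
    apply hd
    apply hD
    rw [Finsupp.sum_embDomain]
    have h1 : d i ≤ d.sum (fun _ k => k) := by
      unfold Finsupp.sum
      apply Finset.single_le_sum (f := fun i => d i) (fun _ _ => Nat.zero_le _)
      rw [Finsupp.mem_support_iff]
      omega
    omega
  refine ⟨∑ d ∈ hfin.toFinset, MvPolynomial.monomial d (F (d.embDomain Fin.valEmbedding)), ?_, ?_⟩
  all_goals
    have hc : ∀ d : Fin n →₀ ℕ, MvPolynomial.coeff d (∑ d ∈ hfin.toFinset,
        MvPolynomial.monomial d (F (d.embDomain Fin.valEmbedding))) = F (d.embDomain Fin.valEmbedding) := by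
      intro d
      rw [MvPolynomial.coeff_sum]
      simp only [MvPolynomial.coeff_monomial]
      rw [Finset.sum_ite_eq']
      split_ifs with h
      · rfl
      · rw [Set.Finite.mem_toFinset, Set.mem_ofPred_eq, not_not] at h
        exact h.symm
  · rw [symm_iff]
    intro e d
    rw [hc, hc, emb_equivMap, hs]
  · exact evalJ_eq n F _ hc

/-- multiset of the nonzero values -/
def vals {α : Type*} (d : α →₀ ℕ) : Multiset ℕ := d.support.val.map d

theorem vals_equivMap {α : Type*} (d : α →₀ ℕ) (s : Equiv.Perm α) : vals (d.equivMapDomain s) = vals d := by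
  unfold vals
  have h1 : (d.equivMapDomain s).support.val = d.support.val.map s := by
    have : (d.equivMapDomain s).support = d.support.map s.toEmbedding := rfl
    rw [this]
    rfl
  rw [h1, Multiset.map_map]
  apply Multiset.map_congr rfl
  intro x _
  simp [Finsupp.equivMapDomain_apply]

theorem vals_emb {n : ℕ} (d : Fin n →₀ ℕ) : vals (d.embDomain Fin.valEmbedding) = vals d := by
  unfold vals
  rw [Finsupp.support_embDomain, Finset.map_val, Multiset.map_map]
  apply Multiset.map_congr rfl
  intro x _
  exact Finsupp.embDomain_apply_self _ _ _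

theorem vals_sum {α : Type*} (d : α →₀ ℕ) : (vals d).sum = d.sum (fun _ k => k) := rfl

theorem vals_perm {n : ℕ} (d e : Fin n →₀ ℕ) (h : vals d = vals e) :
    ∃ s : Equiv.Perm (Fin n), e = d.equivMapDomain s := by
  classical
  have hv : ∀ d : Fin n →₀ ℕ, Finset.univ.val.map d = vals d + Multiset.replicate (n - Multiset.card (vals d)) 0 := by
    intro d
    have h1 : d.support.val = Finset.univ.val.filter (fun i => d i ≠ 0) := by
      have : d.support = Finset.univ.filter (fun i => d i ≠ 0) := by
        ext i; simp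
      rw [this]
      rfl
    have h2 : Finset.univ.val = Finset.univ.val.filter (fun i => d i ≠ 0) + Finset.univ.val.filter (fun i => ¬ d i ≠ 0) :=
      (Multiset.filter_add_not _ _).symm
    have h3 : Multiset.card (Finset.univ.val : Multiset (Fin n)) = n := by
      rw [Finset.card_val, Finset.card_univ, Fintype.card_fin]
    have h4 : Multiset.card (Finset.univ.val.filter (fun i => ¬ d i ≠ 0)) = n - Multiset.card (vals d) := by
      have := congrArg Multiset.card h2
      rw [Multiset.card_add, h3] at this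
      unfold vals
      rw [Multiset.card_map, h1]
      omega
    conv_lhs => rw [h2]
    rw [Multiset.map_add]
    unfold vals at h4 ⊢
    rw [← h1]
    congr 1
    rw [← h4]
    rw [Multiset.eq_replicate]
    constructor
    · rw [Multiset.card_map]
    · intro b hb
      rw [Multiset.mem_map] at hb
      obtain ⟨i, hi, rfl⟩ := hb
      rw [Multiset.mem_filter] at hi
      simpa using hi.2
  have heq : Finset.univ.val.map d = Finset.univ.val.map e := by rw [hv d, hv e, h]
  have hfib : ∀ k : ℕ, Fintype.card {i // d i = k} = Fintype.card {i // e i = k} := by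
    intro k
    have h1 := congrArg (Multiset.count k) heq
    rw [Multiset.count_map, Multiset.count_map] at h1
    rw [Fintype.card_subtype, Fintype.card_subtype]
    have h2 : ∀ f : Fin n →₀ ℕ, (Finset.univ.filter (fun i => f i = k)).card =
        Multiset.card (Finset.univ.val.filter (fun i => k = f i)) := by
      intro f
      rw [Finset.card_def, Finset.filter_val]
      congr 1
      apply Multiset.filter_congr
      intro x _
      exact eq_comm
    rw [h2, h2, h1]
  let s : Equiv.Perm (Fin n) := (Equiv.sigmaFiberEquiv d).symm.trans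
    ((Equiv.sigmaCongrRight (fun k => Fintype.equivOfCardEq (hfib k))).trans (Equiv.sigmaFiberEquiv e))
  have hs : ∀ i, e (s i) = d i := by
    intro i
    have : s i = (Fintype.equivOfCardEq (hfib (d i)) ⟨i, rfl⟩).1 := rfl
    rw [this]
    exact (Fintype.equivOfCardEq (hfib (d i)) ⟨i, rfl⟩).2
  refine ⟨s, ?_⟩
  ext i
  rw [Finsupp.equivMapDomain_apply, ← hs, Equiv.apply_symm_apply]

theorem ofPoly {n : ℕ} (p : MvPolynomial (Fin n) ℂ) (hp : p.IsSymmetric) :
    ∃ F : (ℕ →₀ ℕ) → ℂ, IsSymFun F ∧ evalJ n F = Phi n p := by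
  classical
  let F0 : Multiset ℕ → ℂ := fun m =>
    if h : ∃ d : Fin n →₀ ℕ, vals d = m then MvPolynomial.coeff h.choose p else 0
  have hF0 : ∀ d : Fin n →₀ ℕ, F0 (vals d) = MvPolynomial.coeff d p := by
    intro d
    have h : ∃ d' : Fin n →₀ ℕ, vals d' = vals d := ⟨d, rfl⟩
    simp only [F0]
    rw [dif_pos h]
    obtain ⟨s, hs⟩ := vals_perm _ _ h.choose_spec
    have h1 := (symm_iff p).1 hp s h.choose
    rw [← hs] at h1
    exact h1.symm
  refine ⟨fun d => F0 (vals d), ⟨⟨p.totalDegree, ?_⟩, ?_⟩, ?_⟩
  · intro d hd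
    simp only [F0]
    split_ifs with h
    · apply MvPolynomial.coeff_eq_zero_of_totalDegree_lt
      have h1 := h.choose_spec
      have h2 : ∑ i ∈ h.choose.support, h.choose i = (vals h.choose).sum := rfl
      rw [h2, h1, vals_sum]
      exact hd
    · rfl
  · intro s d
    beta_reduce
    rw [vals_equivMap]
  · apply evalJ_eq
    intro d
    rw [vals_emb, hF0]

end Pool.Agent.R141.JMO
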